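import Pool.Agent.H73.S3.Enr

/-!
# [H73 OW TWO] two layers: definitions (MP_b39724_nt, theorem OW; think 1816, 1824, 1828, 1832, 1834)

`m = d + 1`, `2 ≤ d`. Stage: `H (d + 2)`, `Hh (d + 1)`.
* `Gz S d`: `gam_d / gam_(d+2)` (`kz_eq`; in general divided by the commutators too), additive, `gz d u` the class of `u`. `Dz S q d`: the functionals, `rs`: the restriction to
  `gam_(d+1) / gam_(d+2)`, an element of `Du S q (d+1)`.
* `AD.rz ζ`: the restriction of a family `ζ j : Dz S q d × Dz S q (d+1)`. `AD.pr2`: its value at a change in `Cg d` (`gam_d` at the letters `pp`, `gam_(d+1)` otherwise).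
* `AD.Hhh d τ x ζ`: the Fourier coefficients of `Hh (d+1) τ · (rz ζ)` for the changes `Cg d`.
* `AD.Zg d z`: the changes of the conjugators: `z v ∈ gam_d` if the letter of `v` is `pp`, `gam_(d+1)` otherwise. `AD.chg τ z j`: the change of the value of `j`.
* `AD.F2 Bf τ z ζ`: the change of the phase: values at `chg` and the law `Bf (z v, block of v)`, `Bf = - psi` the quasi Lie functional (QB of H88/OW). `AD.Fz`: it is `0` for all `z`.
* `El2`, `Kf2`, `AD.Kr2`, `AD.et2`: functionals and cells, kernels (cells modulo `gam_d` resp. `gam_(d+1)`).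
* `AX2`, `FX2`: amplitude and the part which depends on the words, for labels `(letter, conjugator, El2, ())`; `hx` the one layer family (`etX` of H88/OW).
* `AD.pfx x v`: the class in `Gr S 1` of the product of the blocks before `v`.
-/

set_option autoImplicit false

open scoped NumberField commutatorElement
open IsDedekindDomain
open scoped Classical

noncomputable section

namespace H73.OW

open H63.MA H38.BB H38.BG H57.PC H57.BRA H77.WD H77.WE H77.PC3 H35.CF H35.UB H77.S3 H71.S3 H1.S3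
  H73.S3

attribute [local instance 50] Fintype.ofFinite

section dz

variable {S : Type} [Group S]

variable (S) in
/-- the kernel of `gam_d → gam_d / gam_(d+2)` -/
def kz (d : ℕ) : Subgroup S := gm S (d + 2) ⊔ ⁅gm S d, gm S d⁆

instance kz_normal (d : ℕ) : (kz S d).Normal := by
  unfold kz
  infer_instance

theorem gm_le {i j : ℕ} (h : i ≤ j) : gm S j ≤ gm S i := by
  induction h with
  | refl => exact le_rfl
  | step _ ih => exact (gm_anti _).trans ih

theorem kz_le (d : ℕ) : kz S d ≤ gm S d :=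
  sup_le (gm_le (by omega)) (Subgroup.commutator_le_left _ _)

theorem kz_ge (d : ℕ) : gm S (d + 2) ≤ kz S d := le_sup_left

variable (S) in
/-- the two layers `gam_d / gam_(d+2)` -/
def Gz (d : ℕ) : Type := Additive (gm S d ⧸ (kz S d).subgroupOf (gm S d))

instance gz_group (d : ℕ) : AddGroup (Gz S d) := by
  unfold Gz
  infer_instance

instance gz_comm (d : ℕ) : AddCommGroup (Gz S d) :=
  { gz_group d with
    add_comm := by
      intro a b
      induction a using QuotientGroup.induction_on with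
      | _ a =>
        induction b using QuotientGroup.induction_on with
        | _ b =>
          refine (QuotientGroup.eq (s := (kz S d).subgroupOf (gm S d))).2 ?_
          rw [Subgroup.mem_subgroupOf]
          have h2 : (((a * b)⁻¹ * (b * a) : gm S d) : S) = ⁅(b : S)⁻¹, (a : S)⁻¹⁆ := by
            simp only [Subgroup.coe_mul, Subgroup.coe_inv, commutatorElement_def]
            group
          rw [h2]
          exact (le_sup_right : _ ≤ kz S d) (Subgroup.commutator_mem_commutator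
            (inv_mem b.2) (inv_mem a.2)) }

instance gz_finite [Finite S] (d : ℕ) : Finite (Gz S d) := by
  unfold Gz
  infer_instance

/-- the class of an element of `gm S d` -/
def gzk (d : ℕ) (u : gm S d) : Gz S d :=
  (Additive.ofMul (QuotientGroup.mk u) : Additive (gm S d ⧸ (kz S d).subgroupOf (gm S d)))

/-- the class of an element -/
def gz (d : ℕ) (u : S) : Gz S d := if h : u ∈ gm S d then gzk d ⟨u, h⟩ else 0

theorem gz_of {d : ℕ} {u : S} (hu : u ∈ gm S d) : gz d u = gzk d ⟨u, hu⟩ := dif_pos hu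

theorem gz_mul {d : ℕ} {u v : S} (hu : u ∈ gm S d) (hv : v ∈ gm S d) :
    gz d (u * v) = gz d u + gz d v := by
  rw [gz_of hu, gz_of hv, gz_of (mul_mem hu hv)]
  rfl

theorem gz_zero {d : ℕ} {u : S} (hu : u ∈ gm S d) : gz d u = 0 ↔ u ∈ kz S d := by
  rw [gz_of hu]
  have h := QuotientGroup.eq_one_iff (N := (kz S d).subgroupOf (gm S d)) (⟨u, hu⟩ : gm S d)
  rw [Subgroup.mem_subgroupOf] at h
  exact h

theorem gz_surj (d : ℕ) (a : Gz S d) : ∃ u ∈ gm S d, gz d u = a := by
  obtain ⟨u, hu⟩ := QuotientGroup.mk_surjective (s := (kz S d).subgroupOf (gm S d)) a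
  refine ⟨u.1, u.2, ?_⟩
  rw [gz_of u.2]
  exact hu

theorem gz_one (d : ℕ) : gz d (1 : S) = 0 := (gz_zero (one_mem _)).2 (one_mem _)

theorem gz_inv {d : ℕ} {u : S} (hu : u ∈ gm S d) : gz d u⁻¹ = -gz d u := by
  have h := gz_mul hu (inv_mem hu)
  rw [mul_inv_cancel, gz_one] at h
  exact (neg_eq_of_add_eq_zero_right h.symm).symm

variable (S) in
/-- the functionals of the two layers -/
def Dz (q d : ℕ) : Type := Gz S d →+ ZMod q

instance dz_group (q d : ℕ) : AddCommGroup (Dz S q d) := by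
  unfold Dz
  infer_instance

instance dz_finite [Finite S] (q d : ℕ) [NeZero q] : Finite (Dz S q d) := by
  unfold Dz
  exact DFunLike.finite _

/-- the value -/
def Dz.ap {q d : ℕ} (χ : Dz S q d) : Gz S d →+ ZMod q := χ

theorem dz_ext {q d : ℕ} {χ ξ : Dz S q d} (h : ∀ a, χ.ap a = ξ.ap a) : χ = ξ :=
  AddMonoidHom.ext h

theorem rs_ex (q d : ℕ) (χ : Dz S q d) : ∃ F : Gr S (d + 1) →+ ZMod q,
    ∀ u ∈ gm S (d + 1), F (gk (d + 1) u) = χ.ap (gz d u) := by
  refine gr_lift (d + 1) (fun u => χ.ap (gz d u)) (fun u hu v hv => ?_) fun u hu => ?_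
  · rw [gz_mul (gm_anti d hu) (gm_anti d hv), map_add]
  · rw [(gz_zero (gm_le (by omega) hu)).2 (kz_ge d hu), map_zero]

/-- the restriction to `gam_(d+1) / gam_(d+2)` -/
def Dz.rs {q d : ℕ} (χ : Dz S q d) : Du S q (d + 1) := (rs_ex q d χ).choose

theorem rs_gk {q d : ℕ} (χ : Dz S q d) {u : S} (hu : u ∈ gm S (d + 1)) :
    χ.rs.ap (gk (d + 1) u) = χ.ap (gz d u) := (rs_ex q d χ).choose_spec u hu

end dz

section ad

variable {S P : Type} [Group S] [Group P] [MulDistribMulAction P S] {J V : Type}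
  (X : AD S P J V) {q d : ℕ}

/-- the superfluous components are `0` -/
def _root_.H73.S3.AD.Ff2 (ζ : X.Jf → Dz S q d × Dz S q (d + 1)) : Prop :=
  ∀ j : X.Jf, if X.pp j then (ζ j).2 = 0 else (ζ j).1 = 0

/-- the restriction of a family -/
def _root_.H73.S3.AD.rz (ζ : X.Jf → Dz S q d × Dz S q (d + 1)) (j : X.Jf) :
    Du S q (d + 1) × Du S q (d + 1 + 1) :=
  if X.pp j then ((ζ j).1.rs, 0) else (0, (ζ j).2.rs)

/-- the value of a family at a change -/
def _root_.H73.S3.AD.pr2 (ζ : X.Jf → Dz S q d × Dz S q (d + 1)) (u : X.Jf → S) : ZMod q :=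
  ∑ j : X.Jf, if X.pp j then (ζ j).1.ap (gz d (u j)) else (ζ j).2.ap (gz (d + 1) (u j))

/-- the Fourier coefficients of `Hh (d + 1)` for the changes in `Cg d` -/
def _root_.H73.S3.AD.Hhh [Fintype S] (τ : V → S) (x : J → SP S P)
    (ζ : X.Jf → Dz S q d × Dz S q (d + 1)) : ℂ :=
  (∑ u ∈ X.Cg d, X.Hh (d + 1) τ (X.mv u x) (X.rz ζ) * ep q (-X.pr2 ζ u)) / ((X.Cg d).card : ℂ)

/-- the place of a letter `pp` -/
def _root_.H73.S3.AD.ppl (v : V) : Prop := ∃ j ∈ X.Jf, X.pp j ∧ X.pj j = v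

/-- the changes of the conjugators -/
def _root_.H73.S3.AD.Zg (d : ℕ) (z : V → S) : Prop :=
  ∀ v, z v ∈ gm S (if X.ppl v then d else d + 1)

/-- the change of the value of the letter `j` -/
def _root_.H73.S3.AD.chg (τ z : V → S) (j : X.Jf) : S :=
  (X.vl (fun v => τ v * z v) j * (X.vl τ j)⁻¹).left

/-- the law: `Bf (z v, block of v)` -/
def _root_.H73.S3.AD.lw (Bf : ∀ i j : ℕ, Gr S i →+ Gr S j →+ ZMod q) (d : ℕ) (x : J → SP S P)
    (z : V → S) : ZMod q :=
  (X.l.map fun v => if X.ppl v then Bf d 2 (gk d (z v)) (gk 2 (X.bk x v).left)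
    else Bf (d + 1) 1 (gk (d + 1) (z v)) (gk 1 (X.bk x v).left)).sum

/-- the change of the phase -/
def _root_.H73.S3.AD.F2 (Bf : ∀ i j : ℕ, Gr S i →+ Gr S j →+ ZMod q) (τ z : V → S)
    (ζ : X.Jf → Dz S q d × Dz S q (d + 1)) : ZMod q :=
  X.pr2 ζ (X.chg τ z) + X.lw Bf d (X.vl τ) z

/-- the condition of the averaging over the conjugations -/
def _root_.H73.S3.AD.Fz (Bf : ∀ i j : ℕ, Gr S i →+ Gr S j →+ ZMod q) (τ : V → S)
    (ζ : X.Jf → Dz S q d × Dz S q (d + 1)) : Prop :=
  ∀ z : V → S, X.Zg d z → X.F2 Bf τ z ζ = 0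

/-- the class of the product of the blocks before `v` -/
def _root_.H73.S3.AD.pfx (x : J → SP S P) (v : V) : Gr S 1 :=
  ((X.l.takeWhile fun w => decide (w ≠ v)).map fun w => gk 1 (X.bk x w).left).sum

variable (S P q d) in
/-- functionals and cell of a letter -/
abbrev El2 : Type := (Dz S q d × Dz S q (d + 1)) × SP S P

/-- the kernel -/
def Kf2 (d : ℕ) (χ : Dz S q d) (x₀ x : SP S P) : ℂ :=
  if rp d x = x₀ then ep q (χ.ap (gz d (x * x₀⁻¹).left)) else 0

/-- the product of the kernels over the letters -/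
def _root_.H73.S3.AD.Kr2 (e : J → El2 S P q d) (x : J → SP S P) : ℂ :=
  ∏ j ∈ X.Jf, if X.pp j then Kf2 d (e j).1.1 (e j).2 (x j) else Kf2 (d + 1) (e j).1.2 (e j).2 (x j)

/-- the functionals of the letters -/
def _root_.H73.S3.AD.et2 (e : J → El2 S P q d) (j : X.Jf) : Dz S q d × Dz S q (d + 1) := (e j).1

/-- functionals and cells together -/
def _root_.H73.S3.AD.je2 (ζ : X.Jf → Dz S q d × Dz S q (d + 1)) (x₀ : X.Jf → SP S P) (j : J) :
    El2 S P q d := if h : j ∈ X.Jf then (ζ ⟨j, h⟩, x₀ ⟨j, h⟩) else ((0, 0), 1)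

end ad

section nt

variable {K : Type} [Field K] [NumberField K] {Ω : Type} [Field Ω] [Algebra K Ω]
  {p N : ℕ} {ζ : K} {D : RD0 K p ζ} {Q : DP K Ω} {A : GS D Ω} {P : Type} [Group P]
  {c : CL p N P} {S : Type} [Group S] [MulDistribMulAction P S] {q d : ℕ}

variable (c S q d) in
/-- labels with two layers: letter, conjugator, functionals and cell -/
abbrev Elb2 : Type := Px c × S × El2 S P q d × Unit

/-- the letters -/
def lf2 (f : Pl K → Option (Elb2 c S q d)) (v : Pl K) : Option (Px c) := (f v).map fun a => a.1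

/-- the conjugators -/
def tf2 (τ₀ : Pl K → S) (f : Pl K → Option (Elb2 c S q d)) (v : Pl K) : S :=
  (f v).elim (τ₀ v) fun a => a.2.1

/-- the functionals and cells -/
def ef2 {g : ℕ} (e₀ : Pl K ⊕ Fin g → El2 S P q d) (f : Pl K → Option (Elb2 c S q d)) :
    Pl K ⊕ Fin g → El2 S P q d :=
  Sum.elim (fun v => (f v).elim (e₀ (Sum.inl v)) fun a => a.2.2.1) fun i => e₀ (Sum.inr i)

variable (G : SG c S) (B : SD D Q A) (X : FD A P S) (W : WF A)

/-- the data of a configuration with labels of two layers -/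
abbrev adx2 (T : ℝ) (Zc : Finset (Pl K)) (f : Pl K → Option (Elb2 c S q d)) :
    AD S P (Pl K ⊕ Fin A.g) (Pl K) := adf G B X W T Zc (lf2 f)

/-- the amplitude; `hx` the one layer family -/
def AX2 [Fintype S] (T : ℝ) (Zc : Finset (Pl K))
    (hx : ∀ f : Pl K → Option (Px c), (adf G B X W T Zc f).Jf → Du S q (d + 1) × Du S q (d + 1 + 1))
    (τ₀ : Pl K → S) (e₀ : Pl K ⊕ Fin A.g → El2 S P q d) (f : Pl K → Option (Elb2 c S q d)) : ℂ :=
  if (adx2 G B X W T Zc f).Ff2 ((adx2 G B X W T Zc f).et2 (ef2 e₀ f)) ∧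
    (adx2 G B X W T Zc f).rz ((adx2 G B X W T Zc f).et2 (ef2 e₀ f)) = hx (lf2 f) then
    (adx2 G B X W T Zc f).Hhh (tf2 τ₀ f) (fun j => (ef2 e₀ f j).2)
      ((adx2 G B X W T Zc f).et2 (ef2 e₀ f)) /
      (Fintype.card S : ℂ) ^ (adx2 G B X W T Zc f).Vf.card else 0

/-- the part which depends on the words -/
def FX2 (T : ℝ) (Zc : Finset (Pl K))
    (hx : ∀ f : Pl K → Option (Px c), (adf G B X W T Zc f).Jf → Du S q (d + 1) × Du S q (d + 1 + 1))
    (Bf : ∀ i j : ℕ, Gr S i →+ Gr S j →+ ZMod q)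
    (τ₀ : Pl K → S) (e₀ : Pl K ⊕ Fin A.g → El2 S P q d) (f : Pl K → Option (Elb2 c S q d)) : ℂ :=
  if (adx2 G B X W T Zc f).rz ((adx2 G B X W T Zc f).et2 (ef2 e₀ f)) = hx (lf2 f) ∧
    (adx2 G B X W T Zc f).Fz Bf (tf2 τ₀ f) ((adx2 G B X W T Zc f).et2 (ef2 e₀ f)) then
    (adx2 G B X W T Zc f).Kr2 (ef2 e₀ f) ((adx2 G B X W T Zc f).vl (tf2 τ₀ f)) else 0

end nt

end H73.OW
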