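import Pool.Agent.H73.OW.Fou2

/-!
# [H73 OW KER2] the expansion in cells, two layers (MP_b39724_nt, theorem OW)

As H73/S3/Ker: `hhh_mv`: `Hhh τ (mv u x) ζ = ep (pr2 ζ u) Hhh τ x ζ` for `u ∈ Cg d`; `hhh_jf`; `cell2`: `Hhh τ x ζ = ∑_(x₀) Hhh τ x₀ ζ * Kr2 (ζ, x₀) x`; `kf2_le`, `kr2_le`; `hhh_le`.
-/

set_option autoImplicit false

open scoped commutatorElement
open scoped Classical

noncomputable section

namespace H73.OW

open H1.S3 H63.MA H73.S3

attribute [local instance 50] Fintype.ofFinite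

variable {S P : Type} [Group S] [Group P] [MulDistribMulAction P S] {J V : Type} {q d : ℕ}

private theorem ker_rp (d : ℕ) (x : SP S P) :
    x = il (x * (rp d x)⁻¹).left * rp d x ∧ (x * (rp d x)⁻¹).left ∈ gm S d := by
  have h1 : x * (rp d x)⁻¹ ∈ (gm S d).map (SemidirectProduct.inl : S →* SP S P) := by
    have h2 := Quotient.mk_out (s := QuotientGroup.rightRel ((gm S d).map
      (SemidirectProduct.inl : S →* SP S P))) x
    exact QuotientGroup.rightRel_apply.1 h2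
  obtain ⟨v, hv, hv2⟩ := h1
  have h3 : (x * (rp d x)⁻¹).left = v := by
    rw [← hv2]
    rfl
  rw [h3]
  refine ⟨?_, hv⟩
  have h4 : (il v : SP S P) = x * (rp d x)⁻¹ := hv2
  rw [h4, inv_mul_cancel_right]

private theorem ker_je (X : AD S P J V) (ζ : X.Jf → Dz S q d × Dz S q (d + 1))
    (z : X.Jf → SP S P) (j : X.Jf) : X.je2 ζ z (j : J) = (ζ j, z j) := by
  unfold AD.je2
  rw [dif_pos j.2]

private theorem ker_kr (X : AD S P J V) (ζ : X.Jf → Dz S q d × Dz S q (d + 1))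
    (z : X.Jf → SP S P) (x : J → SP S P) :
    X.Kr2 (X.je2 ζ z) x = ∏ j : X.Jf, if X.pp j then Kf2 d (ζ j).1 (z j) (x j)
      else Kf2 (d + 1) (ζ j).2 (z j) (x j) := by
  unfold AD.Kr2
  rw [← Finset.prod_coe_sort]
  refine Finset.prod_congr rfl fun j _ => ?_
  rw [ker_je]

theorem kf2_le (d : ℕ) (χ : Dz S q d) (x₀ x : SP S P) : ‖Kf2 d χ x₀ x‖ ≤ 1 := by
  unfold Kf2
  split_ifs
  · rw [ep_norm]
  · rw [norm_zero]
    exact zero_le_one

theorem kr2_le (X : AD S P J V) (e : J → El2 S P q d) (x : J → SP S P) : ‖X.Kr2 e x‖ ≤ 1 := by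
  unfold AD.Kr2
  rw [norm_prod]
  refine Finset.prod_le_one (fun j _ => norm_nonneg _) fun j _ => ?_
  split_ifs
  · exact kf2_le _ _ _ _
  · exact kf2_le _ _ _ _

theorem hhh_mv [Fintype S] [NeZero q] (X : AD S P J V) (τ : V → S) (x : J → SP S P)
    (ζ : X.Jf → Dz S q d × Dz S q (d + 1)) (u : X.Jf → S) (hu : u ∈ X.Cg d) :
    X.Hhh τ (X.mv u x) ζ = ep q (X.pr2 ζ u) * X.Hhh τ x ζ := by
  unfold AD.Hhh
  rw [← mul_div_assoc]
  congr 1
  rw [Finset.mul_sum]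
  refine Finset.sum_bij' (fun w _ => w * u) (fun w _ => w * u⁻¹) ?_ ?_ ?_ ?_ ?_
  · intro w hw
    exact cg_mul X hw hu
  · intro w hw
    exact cg_mul X hw (cg_inv X hu)
  · intro w _
    exact mul_inv_cancel_right w u
  · intro w _
    exact inv_mul_cancel_right w u
  · intro w hw
    have h1 : ep q (X.pr2 ζ u) * ep q (-X.pr2 ζ u) = 1 := by
      rw [← epq_add, add_neg_cancel, ep_zero]
    rw [mv_mv, pr2_mul X ζ hw hu, neg_add, epq_add]
    linear_combination (-(X.Hh (d + 1) τ (X.mv (w * u) x) (X.rz ζ) * ep q (-X.pr2 ζ w))) * h1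

theorem hhh_jf [Fintype S] (X : AD S P J V) {p k Mw c : ℕ} {P' : Type} [Group P']
    {Pi : SP S P →* P'} (hX : X.Ok p k Mw q c Pi) (τ : V → S) (x x' : J → SP S P)
    (h : ∀ j ∈ X.Jf, x j = x' j) (ζ : X.Jf → Dz S q d × Dz S q (d + 1)) :
    X.Hhh τ x ζ = X.Hhh τ x' ζ := by
  have hH : ∀ u : X.Jf → S, X.Hh (d + 1) τ (X.mv u x) (X.rz ζ) =
      X.Hh (d + 1) τ (X.mv u x') (X.rz ζ) := by
    intro u
    refine hh_jf X hX τ _ _ (fun j hj => ?_) _
    unfold AD.mv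
    rw [dif_pos hj, dif_pos hj, h j hj]
  unfold AD.Hhh
  simp only [hH]

theorem cell2 [Fintype S] [Finite P] [NeZero q] (X : AD S P J V) {p k Mw c : ℕ} {P' : Type}
    [Group P'] {Pi : SP S P →* P'} (hX : X.Ok p k Mw q c Pi) (τ : V → S)
    (x : J → SP S P) (ζ : X.Jf → Dz S q d × Dz S q (d + 1)) :
    X.Hhh τ x ζ = ∑ x₀ : X.Jf → SP S P, X.Hhh τ (X.xj x₀) ζ * X.Kr2 (X.je2 ζ x₀) x := by
  obtain ⟨x₀, hx₀⟩ : ∃ x₀ : X.Jf → SP S P, ∀ j : X.Jf,
      x₀ j = rp (if X.pp j then d else d + 1) (x j) := ⟨_, fun _ => rfl⟩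
  obtain ⟨u, hu⟩ : ∃ u : X.Jf → S, ∀ j : X.Jf, u j = (x j * (x₀ j)⁻¹).left := ⟨_, fun _ => rfl⟩
  have hx : ∀ j : X.Jf, x j = il (u j) * x₀ j ∧ u j ∈ gm S (if X.pp j then d else d + 1) := by
    intro j
    rw [hu, hx₀]
    exact ker_rp _ _
  have huC : u ∈ X.Cg d := by
    unfold AD.Cg
    rw [Finset.mem_filter]
    exact ⟨Finset.mem_univ _, fun j => (hx j).2⟩
  have hKr : ∀ z : X.Jf → SP S P, z ≠ x₀ → X.Kr2 (X.je2 ζ z) x = 0 := by
    intro z hz
    obtain ⟨j, hj⟩ := Function.ne_iff.1 hz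
    rw [ker_kr]
    refine Finset.prod_eq_zero (Finset.mem_univ j) ?_
    rw [hx₀] at hj
    by_cases hp : X.pp j
    · rw [if_pos hp] at hj ⊢
      unfold Kf2
      exact if_neg fun h => hj h.symm
    · rw [if_neg hp] at hj ⊢
      unfold Kf2
      exact if_neg fun h => hj h.symm
  have h1 : X.Kr2 (X.je2 ζ x₀) x = ep q (X.pr2 ζ u) := by
    rw [ker_kr]
    unfold AD.pr2
    rw [epq_sum]
    refine Finset.prod_congr rfl fun j _ => ?_
    have h2 := hx₀ j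
    by_cases hp : X.pp j
    · rw [if_pos hp] at h2
      rw [if_pos hp, if_pos hp, hu]
      unfold Kf2
      rw [if_pos h2.symm]
    · rw [if_neg hp] at h2
      rw [if_neg hp, if_neg hp, hu]
      unfold Kf2
      rw [if_pos h2.symm]
  have h2 : X.Hhh τ x ζ = X.Hhh τ (X.mv u (X.xj x₀)) ζ := by
    refine hhh_jf X hX τ x _ (fun j hj => ?_) ζ
    unfold AD.mv AD.xj
    rw [dif_pos hj, dif_pos hj]
    exact (hx ⟨j, hj⟩).1
  rw [Finset.sum_eq_single x₀ (fun z _ hz => by rw [hKr z hz, mul_zero])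
    (fun h => absurd (Finset.mem_univ _) h), h2, hhh_mv X τ _ ζ u huC, h1, mul_comm]

private theorem h_le [Fintype S] (X : AD S P J V) (m : ℕ) (τ : V → S) (x : J → SP S P) :
    ‖X.H m τ x‖ ≤ Fintype.card S := by
  unfold AD.H
  rw [norm_div, norm_mul, Complex.norm_natCast, Complex.norm_natCast, Complex.norm_natCast]
  refine div_le_of_le_mul₀ (Nat.cast_nonneg _) (Nat.cast_nonneg _) ?_
  refine mul_le_mul ?_ ?_ (Nat.cast_nonneg _) (Nat.cast_nonneg _)
  · have h1 : Nat.card (gm S (m + 1)) ≤ Nat.card S := Subgroup.card_le_card_group _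
    rw [Nat.card_eq_fintype_card (α := S)] at h1
    exact_mod_cast h1
  · exact_mod_cast Finset.card_filter_le _ _

private theorem hh_le [Fintype S] {m : ℕ} (X : AD S P J V) (τ : V → S)
    (x : J → SP S P) (η : X.Jf → Du S q m × Du S q (m + 1)) :
    ‖X.Hh m τ x η‖ ≤ Fintype.card S := by
  unfold AD.Hh
  rw [norm_div, Complex.norm_natCast]
  refine div_le_of_le_mul₀ (Nat.cast_nonneg _) (Nat.cast_nonneg _) ?_
  refine (norm_sum_le _ _).trans ?_
  refine (Finset.sum_le_card_nsmul _ _ (Fintype.card S : ℝ) fun u _ => ?_).trans ?_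
  · rw [norm_mul, ep_norm, mul_one]
    exact h_le X _ _ _
  · rw [nsmul_eq_mul, mul_comm]

theorem hhh_le [Fintype S] (X : AD S P J V) (τ : V → S) (x : J → SP S P)
    (ζ : X.Jf → Dz S q d × Dz S q (d + 1)) : ‖X.Hhh τ x ζ‖ ≤ Fintype.card S := by
  unfold AD.Hhh
  rw [norm_div, Complex.norm_natCast]
  refine div_le_of_le_mul₀ (Nat.cast_nonneg _) (Nat.cast_nonneg _) ?_
  refine (norm_sum_le _ _).trans ?_
  refine (Finset.sum_le_card_nsmul _ _ (Fintype.card S : ℝ) fun u _ => ?_).trans ?_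
  · rw [norm_mul, ep_norm, mul_one]
    exact hh_le X _ _ _
  · rw [nsmul_eq_mul, mul_comm]

end H73.OW
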