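import Pool.Agent.H88.OW.Qdf

/-!
# [H73 OW GDX] good quasi Lie functionals (MP_b39724_nt, theorem OW), definitions

* `Gd y R X κ`: the functionals come from `lam : Du S q (m+1)`: `X a z = - lam ⁅y a, z⁆`, `κ g = g lam - lam` for `g ∈ R`.
* `Frg G q m e`: the property of the group `S`: a quasi Lie functional with `B k k u u = 0` for all `u ∈ gam_k`, `2 k = m + 1`, is good.
-/

set_option autoImplicit false

open scoped commutatorElement
open scoped Classical

noncomputable section

namespace H73.OW

open H63.MA H38.BB H38.BG H57.PC H57.BRA H77.WD H77.WE H77.PC3 H35.CF H35.UB H77.S3 H71.S3 H1.S3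
  H73.S3 H88.OW

section gd

variable {S P A : Type} [Group S] [Group P] [MulDistribMulAction P S] {q m : ℕ}

/-- the functionals come from `lam` -/
def Gd (y : A → S) (R : Subgroup P) (X : A → Du S q m) (κ : P → Du S q (m + 1)) : Prop :=
  ∃ lam : Du S q (m + 1), (∀ a z, (X a).ap z = -lam.ap (br m (y a) z)) ∧
    ∀ g ∈ R, κ g = g • lam - lam

end gd

section fr

variable {p N : ℕ} {P : Type} [Group P] {c : CL p N P} {S : Type} [Group S]
  [MulDistribMulAction P S]

/-- quasi Lie functionals whose form in the middle is alternating are good -/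
def Frg (G : SG c S) (q m e : ℕ) : Prop :=
  ∀ (R : Subgroup P) (x : Px c → Du S q m) (κ : P → Du S q (m + 1))
    (B : ∀ i j : ℕ, Gr S i →+ Gr S j →+ ZMod q), QB G.y e R x κ B →
    (∀ k, 1 ≤ k → 2 * k = m + 1 → ∀ u ∈ gm S k, B k k (gk k u) (gk k u) = 0) → Gd G.y R x κ

end fr

end H73.OW
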