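import Pool.Agent.H73.OW.Chg
import Pool.Agent.H73.OW.Ker2

/-!
# [H73 OW EXA2] the average over the conjugations, two layers (MP_b39724_nt, theorem OW)

`Lwf`: the law for `Hh (d+1)` (H97/OW/Law). `hhh_law`: the law for `Hhh`. `hhh_chg`: `Hhh (τ z) (vl (τ z)) ζ = ep (F2 τ z ζ) Hhh τ (vl τ) ζ`.
`exa2`: the mean of `Hh (d+1) τ (vl τ) η` is the mean of the sum over the `ζ` above `η` with `Fz` of `Hhh τ (vl τ) ζ`.
-/

set_option autoImplicit false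

open scoped commutatorElement
open scoped Classical

noncomputable section

namespace H73.OW

open H1.S3 H73.S3 H71.S3 H63.MA

attribute [local instance 50] Fintype.ofFinite

variable {S P : Type} [Group S] [Group P] [MulDistribMulAction P S] {J V : Type} {q d : ℕ}

/-- the law -/
def Lwf [Fintype S] (X : AD S P J V) (Bf : ∀ i j : ℕ, Gr S i →+ Gr S j →+ ZMod q)
    (η : X.Jf → Du S q (d + 1) × Du S q (d + 1 + 1)) : Prop :=
  ∀ (τ z : V → S) (x : J → SP S P), X.Zg d z → (∀ j ∈ X.Jf, (x j).right = X.ph (X.W j)) →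
    X.Hh (d + 1) (fun v => τ v * z v) x η = ep q (X.lw Bf d x z) * X.Hh (d + 1) τ x η

theorem hhh_law [Fintype S] (X : AD S P J V) {p k Mw c : ℕ} {P' : Type} [Group P']
    {Pi : SP S P →* P'} (hX : X.Ok p k Mw q c Pi) (hd : 2 ≤ d)
    (Bf : ∀ i j : ℕ, Gr S i →+ Gr S j →+ ZMod q) (ζ : X.Jf → Dz S q d × Dz S q (d + 1))
    (hl : Lwf X Bf (X.rz ζ)) (τ z : V → S) (x : J → SP S P) (hz : X.Zg d z)
    (hx : ∀ j ∈ X.Jf, (x j).right = X.ph (X.W j)) :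
    X.Hhh (fun v => τ v * z v) x ζ = ep q (X.lw Bf d x z) * X.Hhh τ x ζ := by
  unfold AD.Hhh
  rw [← mul_div_assoc]
  congr 1
  rw [Finset.mul_sum]
  refine Finset.sum_congr rfl fun u hu => ?_
  have h1 : ∀ j ∈ X.Jf, (X.mv u x j).right = X.ph (X.W j) := by
    intro j hj
    unfold AD.mv
    rw [dif_pos hj, sp_right, il_right, one_mul, hx j hj]
  have h2 : X.lw Bf d (X.mv u x) z = X.lw Bf d x z := by
    refine lw_cg X hX hd Bf _ _ (fun j hj hp => by rw [hx j hj, hX.pw j hj hp])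
      (fun j => if h : j ∈ X.Jf then u ⟨j, h⟩ else 1) (fun j hj => ?_) z
    unfold AD.Cg at hu
    rw [Finset.mem_filter] at hu
    have h3 := hu.2 ⟨j, hj⟩
    rw [dif_pos hj]
    refine ⟨h3, ?_⟩
    unfold AD.mv
    rw [dif_pos hj]
  rw [hl τ z _ hz h1, h2]
  ring

theorem hhh_chg [Fintype S] [NeZero q] (X : AD S P J V) {p k Mw c : ℕ} {P' : Type} [Group P']
    {Pi : SP S P →* P'} (hX : X.Ok p k Mw q c Pi) (hd : 2 ≤ d)
    (Bf : ∀ i j : ℕ, Gr S i →+ Gr S j →+ ZMod q) (ζ : X.Jf → Dz S q d × Dz S q (d + 1))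
    (hl : Lwf X Bf (X.rz ζ)) (τ z : V → S) (hz : X.Zg d z) :
    X.Hhh (fun v => τ v * z v) (X.vl fun v => τ v * z v) ζ =
      ep q (X.F2 Bf τ z ζ) * X.Hhh τ (X.vl τ) ζ := by
  have hc : X.chg τ z ∈ X.Cg d := by
    unfold AD.Cg
    rw [Finset.mem_filter]
    refine ⟨Finset.mem_univ _, fun j => ?_⟩
    have h1 := chg_mem X hX τ hz j
    split_ifs
    · exact gm_anti d h1
    · exact h1
  rw [hhh_jf X hX _ (X.vl fun v => τ v * z v) (X.mv (X.chg τ z) (X.vl τ))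
    (fun j hj => vl_chg X τ z j hj), hhh_mv X _ _ ζ _ hc,
    hhh_law X hX hd Bf ζ hl τ z _ hz fun j _ => vl_rt X τ j]
  unfold AD.F2
  rw [epq_add]
  ring

/-- `F2` depends on `z` at the places of the letters only -/
theorem f2_vf (X : AD S P J V) {p k Mw c : ℕ} {P' : Type} [Group P']
    {Pi : SP S P →* P'} (hX : X.Ok p k Mw q c Pi)
    (Bf : ∀ i j : ℕ, Gr S i →+ Gr S j →+ ZMod q) (τ : V → S) (z z' : V → S)
    (h : ∀ v ∈ X.Vf, z v = z' v) (ζ : X.Jf → Dz S q d × Dz S q (d + 1)) :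
    X.F2 Bf τ z ζ = X.F2 Bf τ z' ζ := by
  have h0 : ∀ j ∈ X.Jf, z (X.pj j) = z' (X.pj j) := fun j hj =>
    h _ (Finset.mem_image.2 ⟨j, hj, rfl⟩)
  have h1 : X.th (fun v => τ v * z v) = X.th (fun v => τ v * z' v) := by
    refine FreeGroup.ext_hom _ _ fun j => ?_
    rw [th_of, th_of]
    by_cases hj : j ∈ X.Jf
    · rw [h0 j hj]
    · rw [hX.t1 j hj, cj_one, cj_one]
  have h2 : X.chg τ z = X.chg τ z' := by
    funext j
    unfold AD.chg AD.vl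
    rw [h1]
    beta_reduce
    rw [h0 j j.2]
  have h3 : X.lw Bf d (X.vl τ) z = X.lw Bf d (X.vl τ) z' := by
    unfold AD.lw
    congr 1
    refine List.map_congr_left fun v _ => ?_
    by_cases hv : v ∈ X.Vf
    · rw [h v hv]
    · have h4 : X.bk (X.vl τ) v = 1 := by
        unfold AD.bk wd
        refine List.prod_eq_one ?_
        intro y hy
        obtain ⟨j, hj, rfl⟩ := List.mem_map.1 hy
        have h5 : j ∉ X.Jf := fun h6 => hv (Finset.mem_image.2 ⟨j, h6, hX.bp v j hj⟩)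
        rw [hX.t1 j h5, commutatorElement_one_left]
      rw [h4]
      have h5 : (1 : SP S P).left = (1 : S) := rfl
      rw [h5, gk_one, gk_one, map_zero, map_zero, map_zero, map_zero]
  unfold AD.F2
  rw [h2, h3]

/-- the sum of a character -/
theorem sum_chr {Z : Type} [Group Z] [NeZero q] (H : Finset Z)
    (h1 : ∀ a ∈ H, ∀ b ∈ H, a * b ∈ H) (hi : ∀ a ∈ H, a⁻¹ ∈ H) (f : Z → ZMod q)
    (hf : ∀ a ∈ H, ∀ b ∈ H, f (a * b) = f a + f b) :
    ∑ a ∈ H, ep q (f a) = if ∀ a ∈ H, f a = 0 then (H.card : ℂ) else 0 := by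
  split_ifs with h
  · rw [Finset.sum_congr rfl fun a ha => by rw [h a ha, epq_zero], Finset.sum_const, nsmul_eq_mul,
      mul_one]
  · push Not at h
    obtain ⟨a, ha, hne⟩ := h
    have h2 : ∑ b ∈ H, ep q (f b) = ep q (f a) * ∑ b ∈ H, ep q (f b) := by
      rw [Finset.mul_sum]
      symm
      refine Finset.sum_bij' (fun b _ => a * b) (fun b _ => a⁻¹ * b) ?_ ?_ ?_ ?_ ?_
      · intro b hb
        exact h1 a ha b hb
      · intro b hb
        exact h1 _ (hi a ha) b hb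
      · intro b _
        exact inv_mul_cancel_left a b
      · intro b _
        exact mul_inv_cancel_left a b
      · intro b hb
        rw [hf a ha b hb, epq_add]
    have h3 : (ep q (f a) - 1) * ∑ b ∈ H, ep q (f b) = 0 := by
      rw [sub_mul, one_mul, ← h2, sub_self]
    exact (mul_eq_zero.1 h3).resolve_left (sub_ne_zero.2 fun h4 => hne ((ep_one_iff _).1 h4))

/-- the mean of `Hhh` -/
theorem mn_hhh [Fintype S] [NeZero q] (X : AD S P J V) {p k Mw c : ℕ} {P' : Type} [Group P']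
    {Pi : SP S P →* P'} (hX : X.Ok p k Mw q c Pi) (hd : 2 ≤ d)
    (Bf : ∀ i j : ℕ, Gr S i →+ Gr S j →+ ZMod q) (ζ : X.Jf → Dz S q d × Dz S q (d + 1))
    (hl : Lwf X Bf (X.rz ζ)) :
    X.Mn (fun τ => X.Hhh τ (X.vl τ) ζ) =
      X.Mn (fun τ => if X.Fz Bf τ ζ then X.Hhh τ (X.vl τ) ζ else 0) := by
  obtain ⟨Zf, hZf⟩ : ∃ Zf : Finset (X.Vf → S), ∀ z, z ∈ Zf ↔
      ∀ v : X.Vf, z v ∈ gm S (if X.ppl v then d else d + 1) :=
    ⟨Finset.univ.filter fun z : X.Vf → S => ∀ v : X.Vf, z v ∈ gm S (if X.ppl v then d else d + 1),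
      fun z => by simp⟩
  have hex : ∀ z ∈ Zf, X.Zg d (X.ex z) := by
    intro z hz v
    unfold AD.ex
    by_cases h1 : v ∈ X.Vf
    · rw [dif_pos h1]
      exact (hZf z).1 hz ⟨v, h1⟩
    · rw [dif_neg h1]
      exact one_mem _
  have hmul : ∀ z z' : X.Vf → S, X.ex (z * z') = fun v => X.ex z v * X.ex z' v := by
    intro z z'
    funext v
    unfold AD.ex
    split_ifs
    · rfl
    · rw [one_mul]
  have hZ1 : ∀ a ∈ Zf, ∀ b ∈ Zf, a * b ∈ Zf := fun a ha b hb =>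
    (hZf _).2 fun v => mul_mem ((hZf a).1 ha v) ((hZf b).1 hb v)
  have hZi : ∀ a ∈ Zf, a⁻¹ ∈ Zf := fun a ha => (hZf _).2 fun v => inv_mem ((hZf a).1 ha v)
  have hZ0 : (Zf.card : ℂ) ≠ 0 := by
    have h1 : (1 : X.Vf → S) ∈ Zf := (hZf _).2 fun v => one_mem _
    exact_mod_cast (Finset.card_pos.2 ⟨_, h1⟩).ne'
  have hF : ∀ τ : X.Vf → S, (∀ z ∈ Zf, X.F2 Bf (X.ex τ) (X.ex z) ζ = 0) ↔
      X.Fz Bf (X.ex τ) ζ := by
    intro τ
    constructor
    · intro h z hz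
      have h1 := h (fun v => z v) ((hZf _).2 fun v => hz v)
      rw [← h1]
      refine f2_vf X hX Bf _ _ _ (fun v hv => ?_) ζ
      unfold AD.ex
      rw [dif_pos hv]
    · intro h z hz
      exact h _ (hex z hz)
  have hs : ∀ τ : X.Vf → S, ∑ z ∈ Zf, ep q (X.F2 Bf (X.ex τ) (X.ex z) ζ) =
      if X.Fz Bf (X.ex τ) ζ then (Zf.card : ℂ) else 0 := by
    intro τ
    obtain ⟨f, hf⟩ : ∃ f : (X.Vf → S) → ZMod q, ∀ z, f z = X.F2 Bf (X.ex τ) (X.ex z) ζ :=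
      ⟨_, fun _ => rfl⟩
    have h1 : ∀ a ∈ Zf, ∀ b ∈ Zf, f (a * b) = f a + f b := by
      intro a ha b hb
      rw [hf, hf, hf, hmul]
      exact f2_mul X hX hd Bf _ (hex a ha) (hex b hb) ζ
    have h2 := sum_chr Zf hZ1 hZi f h1
    simp only [hf] at h2
    rw [h2]
    exact if_congr (hF τ) rfl rfl
  obtain ⟨g, hg⟩ : ∃ g : (X.Vf → S) → ℂ, ∀ τ, g τ = X.Hhh (X.ex τ) (X.vl (X.ex τ)) ζ :=
    ⟨_, fun _ => rfl⟩
  obtain ⟨F, hFd⟩ : ∃ F : (X.Vf → S) → (X.Vf → S) → ZMod q,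
      ∀ τ z, F τ z = X.F2 Bf (X.ex τ) (X.ex z) ζ := ⟨_, fun _ _ => rfl⟩
  have hgF : ∀ z ∈ Zf, ∀ τ, g (τ * z) = ep q (F τ z) * g τ := by
    intro z hz τ
    rw [hg, hg, hFd, hmul]
    exact hhh_chg X hX hd Bf ζ hl _ _ (hex z hz)
  have key : (Zf.card : ℂ) * ∑ τ : X.Vf → S, g τ =
      (Zf.card : ℂ) * ∑ τ : X.Vf → S, if X.Fz Bf (X.ex τ) ζ then g τ else 0 := by
    have h1 : ∀ z ∈ Zf, ∑ τ : X.Vf → S, g τ = ∑ τ : X.Vf → S, ep q (F τ z) * g τ := by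
      intro z hz
      have h2 : ∑ τ : X.Vf → S, g (τ * z) = ∑ τ : X.Vf → S, g τ :=
        Equiv.sum_comp (Equiv.mulRight z) g
      rw [← h2]
      exact Finset.sum_congr rfl fun τ _ => hgF z hz τ
    have h2 : (Zf.card : ℂ) * ∑ τ : X.Vf → S, g τ =
        ∑ z ∈ Zf, ∑ τ : X.Vf → S, ep q (F τ z) * g τ := by
      rw [← Finset.sum_congr rfl h1, Finset.sum_const, nsmul_eq_mul]
    rw [h2, Finset.sum_comm, Finset.mul_sum]
    refine Finset.sum_congr rfl fun τ _ => ?_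
    have h3 : ∑ z ∈ Zf, ep q (F τ z) = if X.Fz Bf (X.ex τ) ζ then (Zf.card : ℂ) else 0 := by
      rw [← hs τ]
      exact Finset.sum_congr rfl fun z _ => by rw [hFd]
    rw [← Finset.sum_mul, h3]
    split_ifs
    · rfl
    · rw [zero_mul, mul_zero]
  have key2 := mul_left_cancel₀ hZ0 key
  simp only [hg] at key2
  unfold AD.Mn
  rw [key2]

private theorem mn_sum2 [Fintype S] (X : AD S P J V) {ι : Type} (s : Finset ι)
    (f : ι → (V → S) → ℂ) : X.Mn (fun τ => ∑ i ∈ s, f i τ) = ∑ i ∈ s, X.Mn (f i) := by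
  unfold AD.Mn
  rw [Finset.sum_comm, Finset.sum_div]

/-- THE EXACT PART, two layers -/
theorem exa2 [Fintype S] [NeZero q] (X : AD S P J V) {p k Mw c : ℕ} {P' : Type} [Group P']
    {Pi : SP S P →* P'} (hX : X.Ok p k Mw q c Pi) (hd : 2 ≤ d)
    (Bf : ∀ i j : ℕ, Gr S i →+ Gr S j →+ ZMod q)
    (η : X.Jf → Du S q (d + 1) × Du S q (d + 1 + 1)) (hη : X.Ff η) (hl : Lwf X Bf η) :
    X.Mn (fun τ => X.Hh (d + 1) τ (X.vl τ) η) =
      X.Mn (fun τ => ∑ ζ ∈ Finset.univ.filter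
        (fun ζ : X.Jf → Dz S q d × Dz S q (d + 1) => X.Ff2 ζ ∧ X.rz ζ = η),
          if X.Fz Bf τ ζ then X.Hhh τ (X.vl τ) ζ else 0) := by
  have h1 : (fun τ : V → S => X.Hh (d + 1) τ (X.vl τ) η) = fun τ => ∑ ζ ∈ Finset.univ.filter
      (fun ζ : X.Jf → Dz S q d × Dz S q (d + 1) => X.Ff2 ζ ∧ X.rz ζ = η), X.Hhh τ (X.vl τ) ζ :=
    funext fun τ => four2 X hX.qe hd τ (X.vl τ) η hη
  rw [h1, mn_sum2, mn_sum2]
  refine Finset.sum_congr rfl fun ζ hζ => ?_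
  rw [Finset.mem_filter] at hζ
  refine mn_hhh X hX hd Bf ζ ?_
  rw [hζ.2.2]
  exact hl

end H73.OW
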