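import Pool.Agent.H73.S3.Al
import Pool.Agent.H62.BL.Alg

/-!
# [H73 OW WRD] right normed commutators generate the layers; the pattern of a bad functional (MP_b39724_nt, theorem OW)

`gr_rn`: `Gr S k` is generated by the classes of the right normed commutators of `k` letters, if the letters generate `S`. `bad_word`: a skew form `B` on `Gr S k` with `B u u ≠ 0` for
some `u` has `B u u ≠ 0` for the right normed commutator `u` of some letters. `pat r w`: the pattern `r, w, w`.
-/

set_option autoImplicit false

open scoped commutatorElement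

noncomputable section

namespace H73.OW

open H73.S3

variable {S A : Type} [Group S]

theorem gk_br_left (k : ℕ) (s s' : S) {u : S} (hu : u ∈ gm S k) :
    gk (k + 1) ⁅s * s', u⁆ = gk (k + 1) ⁅s, u⁆ + gk (k + 1) ⁅s', u⁆ := by
  have h1 : ⁅s * s', u⁆ = (s * ⁅s', u⁆ * s⁻¹) * ⁅s, u⁆ := by
    simp only [commutatorElement_def]
    group
  rw [h1, gk_mul ((gm_normal (k + 1)).conj_mem _ (gm_comm' k hu) s) (gm_comm' k hu),
    gk_conj (gm_comm' k hu)]
  exact add_comm _ _

theorem gr_rn {y : A → S} (hy : Subgroup.closure (Set.range y) = ⊤) (k : ℕ) :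
    AddSubgroup.closure {a : Gr S (k + 1) | ∃ w : List A, w.length = k + 1 ∧
      a = gk (k + 1) (H62.BL.rn (w.map y))} = ⊤ := by
  induction k with
  | zero =>
    rw [eq_top_iff]
    intro a h0
    clear h0
    obtain ⟨u, -, rfl⟩ := gk_surj (0 + 1) a
    have hu : u ∈ Subgroup.closure (Set.range y) := by
      rw [hy]
      exact Subgroup.mem_top _
    have h1 : ∀ v : S, v ∈ gm S (0 + 1) := fun v => Subgroup.mem_top _
    induction hu using Subgroup.closure_induction with
    | mem x hx =>
      obtain ⟨a, rfl⟩ := hx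
      exact AddSubgroup.subset_closure ⟨[a], rfl, rfl⟩
    | one =>
      rw [gk_one]
      exact AddSubgroup.zero_mem _
    | mul a b _ _ ha hb =>
      rw [gk_mul (h1 a) (h1 b)]
      exact AddSubgroup.add_mem _ ha hb
    | inv a _ ha =>
      rw [gk_inv (h1 a)]
      exact AddSubgroup.neg_mem _ ha
  | succ k ih =>
    obtain ⟨H, hH⟩ : ∃ H : AddSubgroup (Gr S (k + 1 + 1)), H = AddSubgroup.closure
        {a : Gr S (k + 1 + 1) | ∃ w : List A, w.length = k + 1 + 1 ∧
          a = gk (k + 1 + 1) (H62.BL.rn (w.map y))} := ⟨_, rfl⟩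
    rw [← hH, eq_top_iff]
    -- letters
    have h1 : ∀ (a : A) (z : Gr S (k + 1)), br (k + 1) (y a) z ∈ H := by
      intro a z
      have hz : z ∈ AddSubgroup.closure {a : Gr S (k + 1) | ∃ w : List A, w.length = k + 1 ∧
          a = gk (k + 1) (H62.BL.rn (w.map y))} := by
        rw [ih]
        exact AddSubgroup.mem_top _
      induction hz using AddSubgroup.closure_induction with
      | mem x hx =>
        obtain ⟨w, hw, rfl⟩ := hx
        rw [hH]
        refine AddSubgroup.subset_closure ⟨a :: w, by rw [List.length_cons, hw], ?_⟩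
        rcases w with _ | ⟨b, w⟩
        · simp at hw
        have hm : H62.BL.rn (List.map y (b :: w)) ∈ gm S (k + 1) := by
          have key : ∀ (n : ℕ) (w : List A), w.length = n + 1 →
              H62.BL.rn (w.map y) ∈ gm S (n + 1) := by
            intro n
            induction n with
            | zero => intro w _; exact Subgroup.mem_top _
            | succ n ihn =>
              intro w hw
              rcases w with _ | ⟨a, w⟩
              · simp at hw
              rcases w with _ | ⟨b, w⟩
              · simp at hw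
              have h3 := ihn (b :: w) (by simpa using hw)
              exact gm_comm' (n + 1) h3
          exact key k (b :: w) hw
        rw [br_gk _ hm]
        rfl
      | zero =>
        rw [map_zero]
        exact H.zero_mem
      | add u v _ _ hu hv =>
        rw [map_add]
        exact H.add_mem hu hv
      | neg u _ hu =>
        rw [map_neg]
        exact H.neg_mem hu
    have h2 : ∀ (s : S) (u : S), u ∈ gm S (k + 1) → gk (k + 1 + 1) ⁅s, u⁆ ∈ H := by
      intro s u hu
      have hs : s ∈ Subgroup.closure (Set.range y) := by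
        rw [hy]
        exact Subgroup.mem_top _
      induction hs using Subgroup.closure_induction with
      | mem x hx =>
        obtain ⟨a, rfl⟩ := hx
        have h3 := h1 a (gk (k + 1) u)
        rwa [br_gk _ hu] at h3
      | one =>
        rw [commutatorElement_one_left, gk_one]
        exact H.zero_mem
      | mul a b _ _ ha hb =>
        rw [gk_br_left _ _ _ hu]
        exact H.add_mem ha hb
      | inv a _ ha =>
        have h3 := gk_br_left (k + 1) a⁻¹ a hu
        rw [inv_mul_cancel, commutatorElement_one_left, gk_one] at h3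
        have h4 : gk (k + 1 + 1) ⁅a⁻¹, u⁆ = -gk (k + 1 + 1) ⁅a, u⁆ :=
          eq_neg_of_add_eq_zero_left h3.symm
        rw [h4]
        exact H.neg_mem ha
    intro a h0
    clear h0
    obtain ⟨u, hu, rfl⟩ := gk_surj (k + 1 + 1) a
    rw [gm_succ (k + 1) (by omega), Subgroup.commutator_def] at hu
    have key : u ∈ gm S (k + 1 + 1) ∧ gk (k + 1 + 1) u ∈ H := by
      induction hu using Subgroup.closure_induction with
      | mem x hx =>
        obtain ⟨g₁, hg₁, g₂, -, rfl⟩ := hx
        refine ⟨gm_comm _ hg₁, ?_⟩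
        rw [← commutatorElement_inv, gk_inv (gm_comm' _ hg₁)]
        exact H.neg_mem (h2 _ _ hg₁)
      | one =>
        refine ⟨one_mem _, ?_⟩
        rw [gk_one]
        exact H.zero_mem
      | mul a b _ _ ha hb =>
        refine ⟨mul_mem ha.1 hb.1, ?_⟩
        rw [gk_mul ha.1 hb.1]
        exact H.add_mem ha.2 hb.2
      | inv a _ ha =>
        refine ⟨inv_mem ha.1, ?_⟩
        rw [gk_inv ha.1]
        exact H.neg_mem ha.2
    exact key.2

theorem bad_word {y : A → S} (hy : Subgroup.closure (Set.range y) = ⊤) {q k : ℕ} (hk : 1 ≤ k)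
    (B : Gr S k →+ Gr S k →+ ZMod q) (sk : ∀ a b, B a b + B b a = 0)
    (h : ∃ u ∈ gm S k, B (gk k u) (gk k u) ≠ 0) :
    ∃ w : List A, w.length = k ∧ B (gk k (H62.BL.rn (w.map y))) (gk k (H62.BL.rn (w.map y))) ≠ 0 := by
  obtain ⟨k, rfl⟩ : ∃ n, k = n + 1 := ⟨k - 1, by omega⟩
  by_contra hc
  push Not at hc
  obtain ⟨u, -, hu⟩ := h
  apply hu
  obtain ⟨x, hx⟩ : ∃ x, x = gk (k + 1) u := ⟨_, rfl⟩
  rw [← hx]
  clear hx hu
  have h1 : x ∈ AddSubgroup.closure {a : Gr S (k + 1) | ∃ w : List A,
      w.length = k + 1 ∧ a = gk (k + 1) (H62.BL.rn (w.map y))} := by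
    rw [gr_rn hy k]
    exact AddSubgroup.mem_top _
  induction h1 using AddSubgroup.closure_induction with
  | mem x hx =>
    obtain ⟨w, hw, rfl⟩ := hx
    exact hc w hw
  | zero => rw [map_zero]
  | add a b _ _ ha hb =>
    have e1 : B (a + b) (a + b) = B a a + B b b + (B a b + B b a) := by
      rw [map_add B a b, AddMonoidHom.add_apply, map_add (B a) a b, map_add (B b) a b]
      abel
    rw [e1, ha, hb, sk a b, add_zero, add_zero]
  | neg a _ ha =>
    have e1 : B (-a) (-a) = B a a := by
      rw [map_neg B a, AddMonoidHom.neg_apply, map_neg (B a) a, neg_neg]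
    rw [e1, ha]

/-- the pattern: `r`, `w`, `w` -/
def pat {h : ℕ} (r : A) (w : Fin h → A) (i : Fin (2 * h + 1)) : A :=
  if hi : 0 < h ∧ 0 < i.val then w ⟨(i.val - 1) % h, Nat.mod_lt _ hi.1⟩ else r

end H73.OW
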