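import Pool.Agent.H51.OW.Neg1
import Pool.Agent.H35.OW.Neg2
import Pool.Agent.H35.OW.Sy2
import Pool.Agent.H70.OW.Rei2
import Pool.Agent.H97.OW.Law
import Pool.Agent.H73.OW.Exa2
import Pool.Agent.H73.OW.Wrd
import Pool.Agent.H51.OW.Good

/-!
# [H73 OW STG2] the stage theorem for all primes `p` (MP_b39724_nt, theorem OW)

* `stg_gd`: the stage `m` if `m` is even or `p ≠ 2`: all quasi Lie functionals are good (`Frg`).
* `stg_bd`: the stage `m = 2 h + 1`: the bad quasi Lie functionals `x` have a pattern `pat r w` with `Bf (h+1) (h+1) u u ≠ 0`, `u` the right normed commutator; the part `NXX x` is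
  `EX2` (`exa2`, `rei2`), negligible by `neg2` if the box inequality `BxF2` holds for the pattern.
-/

set_option autoImplicit false

open scoped NumberField commutatorElement
open IsDedekindDomain
open scoped Classical

noncomputable section

namespace H73.OW

open H63.MA H38.BB H38.BG H57.PC H57.BRA H77.WD H77.WE H77.PC3 H35.CF H35.UB H77.S3 H71.S3 H1.S3
  H73.S3 H88.OW H35.OW

attribute [local instance 50] Fintype.ofFinite

variable {K : Type} [Field K] [NumberField K] {Ω : Type} [Field Ω] [Algebra K Ω]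
  {p N : ℕ} {ζ : K} {D : RD0 K p ζ} {Q : DP K Ω} {A : GS D Ω} {P : Type} [Group P]
  {c : CL p N P} {S : Type} [Group S] [MulDistribMulAction P S] {q m ep : ℕ}

/-- the right normed commutator of the letters `r, w` -/
def rw1 (G : SG c S) {h : ℕ} (r : Px c) (w : Fin h → Px c) : S :=
  H62.BL.rn (G.y r :: List.ofFn fun i => G.y (w i))

section sv

variable (G : SG c S) (B : SD D Q A) (X : FD A P S) (W : WF A)

/-- the functional of a letter `pp` -/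
theorem etx_pp (T : ℝ) (Zc : Finset (Pl K)) (hZE : Disjoint Zc X.E)
    (f : Pl K → Option (Px c)) (x : (Px c → Du S q m) × (P → Du S q (m + 1)))
    (j : (adf G B X W T Zc f).Jf) (hj : (adf G B X W T Zc f).pp j) :
    ∃ s : Px c, (etX G B X W T Zc f x j).1 = x.1 s ∧ (adf G B X W T Zc f).y j = G.y s := by
  obtain ⟨j, hjf⟩ := j
  rcases j with v | i
  · have hv : v ∈ sp Zc f ∧ PPc X W T v := hj
    obtain ⟨hvZ, hvn⟩ := mem_sp.1 hv.1
    obtain ⟨s, hs⟩ := Option.ne_none_iff_exists'.1 hvn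
    refine ⟨s, ?_, H51.OW.y_lab G B X W T Zc hZE f hvZ hs⟩
    unfold etX AD.eX
    rw [if_pos hj]
    exact H51.OW.xf_lab (g := A.g) x.1 f hs
  · exact hj.elim

/-- `Hk` for quasi Lie functionals -/
theorem etx_hk [Fintype S] [Fintype P] [NeZero q] (hp : p.Prime) {k Mw c₀ : ℕ}
    (T : ℝ) (Zc : Finset (Pl K)) (hZE : Disjoint Zc X.E) (hXo : X.Ok G B W)
    (hV : Frv G q m ep) (x : (Px c → Du S q m) × (P → Du S q (m + 1)))
    (hx : x ∈ QBs q m G X W ep) (f : Pl K → Option (Px c))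
    (hX : (adf G B X W T Zc f).Ok p k Mw q c₀ G.Pi) :
    (adf G B X W T Zc f).Hk (etX G B X W T Zc f x) := by
  have hk1 := etx_kk hp G B X W T Zc hZE hXo hV f hX x hx
  have h1 : x.2 1 = 0 := by
    have h2 := hk1.1.ch 1 1
    have h3 : (adf G B X W T Zc f).ph 1 = 1 := map_one _
    beta_reduce at h2
    rw [mul_one, h3, one_smul] at h2
    exact left_eq_add.1 h2
  refine ⟨_, hk1.1, fun v hv => ?_, fun j hj hpp z => ?_⟩
  · rw [hX.hb v hv, h1]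
  · rw [hX.pw j hj hpp, h1]
    rfl

/-- the law for the family of a quasi Lie functional -/
theorem etx_law [Fintype S] [Fintype P] [NeZero q] {d k Mw c₀ : ℕ} (hd : 2 ≤ d)
    (T : ℝ) (Zc : Finset (Pl K)) (hZE : Disjoint Zc X.E)
    (x : (Px c → Du S q (d + 1)) × (P → Du S q (d + 1 + 1)))
    (Bf : ∀ i j : ℕ, Gr S i →+ Gr S j →+ ZMod q) (hB : QB G.y ep (Rh X W) x.1 x.2 Bf)
    (f : Pl K → Option (Px c)) (hX : (adf G B X W T Zc f).Ok p k Mw q c₀ G.Pi) :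
    Lwf (adf G B X W T Zc f) Bf (etX G B X W T Zc f x) := by
  refine H97.OW.law hX hd Bf ?_ _ ?_
  · intro i j k hi hj hk hijk u hu v hv w hw
    exact hB.jac i j k hi hj hk (by omega) u hu v hv w hw
  · intro j hj z
    obtain ⟨s, e1, e2⟩ := etx_pp G B X W T Zc hZE f x j hj
    rw [e1, e2]
    exact (hB.gen s z).symm

/-- the part of a bad functional -/
theorem nxx_bd [Fintype S] [Fintype P] [NeZero q] (hp : p.Prime) {d k Mw c₀ : ℕ} (hd : 2 ≤ d)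
    (T : ℝ) (Zc : Finset (Pl K)) (hZE : Disjoint Zc X.E) (hZ0 : Disjoint Zc D.S0)
    (hXo : X.Ok G B W)
    (hV : Frv G q (d + 1) ep) (x : (Px c → Du S q (d + 1)) × (P → Du S q (d + 1 + 1)))
    (hx : x ∈ QBs q (d + 1) G X W ep) (hb : ¬Gd G.y (Rh X W) x.1 x.2)
    (Bf : ∀ i j : ℕ, Gr S i →+ Gr S j →+ ZMod q) (hB : QB G.y ep (Rh X W) x.1 x.2 Bf)
    (wt : (Pl K → Option (Px c)) → ℂ) (hr : ∀ f, wt f ≠ 0 → Rich X W T Zc 1 f)
    (hok : ∀ f, wt f ≠ 0 → (adf G B X W T Zc f).Ok p k Mw q c₀ G.Pi) :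
    NXX G B X W T Zc wt x =
      H70.OW.EX2 G B X W T Zc (fun f => etX G B X W T Zc f x) Bf wt := by
  refine Eq.trans ?_ (H70.OW.rei2 (k := k) (Mw := Mw) (c₀ := c₀) G B X W T Zc hZE hZ0
    (fun f => etX G B X W T Zc f x) Bf wt fun f _ hf => hok f hf)
  unfold NXX
  refine Finset.sum_congr rfl fun f _ => ?_
  by_cases hw : wt f = 0
  · rw [hw, zero_mul, zero_mul]
  have hX := hok f hw
  refine congrArg (fun t => wt f * t) ?_
  refine (if_pos ⟨etx_hk G B X W hp T Zc hZE hXo hV x hx f hX, fun hs =>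
    hb (H51.OW.sv_gd hp G B X W T Zc hZE hXo hV f (hr f hw) hX x hx hs)⟩).trans ?_
  have hk : ∀ (α : Type) (i1 i2 : Fintype α) (Q : α → Prop) (d1 d2 : DecidablePred Q)
      (F : α → ℂ), @Finset.sum _ _ _ (@Finset.filter _ Q d1 (@Finset.univ _ i1)) F =
        @Finset.sum _ _ _ (@Finset.filter _ Q d2 (@Finset.univ _ i2)) F := by
    intro α i1 i2 Q d1 d2 F
    rw [Subsingleton.elim i1 i2, Subsingleton.elim d1 d2]
  refine (exa2 (adf G B X W T Zc f) hX hd Bf _ (etx_ff G B X W T Zc f x)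
    (etx_law G B X W hd T Zc hZE x Bf hB f hX)).trans ?_
  refine congrArg _ (funext fun τ => ?_)
  exact hk _ _ _ _ _ _ _

end sv

section mono

private theorem s2_sum {α : Type} (s : Finset α) (P₁ P₂ : α → Prop) [DecidablePred P₁]
    [DecidablePred P₂] (f : α → ℝ)
    (h : ∀ a ∈ s, P₁ a → P₂ a) (hf : ∀ a ∈ s, 0 ≤ f a) :
    ∑ a ∈ s.filter P₁, f a ≤ ∑ a ∈ s.filter P₂, f a := by
  refine Finset.sum_le_sum_of_subset_of_nonneg ?_ fun a ha _ => hf a (Finset.mem_filter.1 ha).1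
  intro a ha
  rw [Finset.mem_filter] at ha ⊢
  exact ⟨ha.1, h a ha.1 ha.2⟩

private theorem s2_log {Y : ℝ} (hY : 3 ≤ Y) : 1 ≤ Real.log Y := by
  rw [Real.le_log_iff_exp_le (by linarith)]
  have := Real.exp_one_lt_d9
  linarith

private theorem s2_nr (n : Finset (Pl K)) : 0 ≤ nr n := by
  unfold nr
  exact Finset.prod_nonneg fun _ _ => Nat.cast_nonneg _

private theorem s2_pr {n : ℕ} (lo : Fin n → ℝ) (h : ∀ k, 0 ≤ lo k) : 0 ≤ ∏ k, lo k :=
  Finset.prod_nonneg fun k _ => h k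

variable (G : SG c S) (B : SD D Q A) (X : FD A P S) (W : WF A)

theorem bxf_mono [Fintype S] [Fintype P] [NeZero q] {T : ℝ} (hT : 0 ≤ T) (Zc : Finset (Pl K))
    {C₁ C₂ A' A'' Y : ℝ} (hY : 3 ≤ Y) (hC : C₂ ≤ C₁) (hA : A'' ≤ A')
    (h : BxF (q := q) G B X W T Zc m C₁ A' Y) : BxF (q := q) G B X W T Zc m C₂ A'' Y := by
  have hY1 : (1 : ℝ) ≤ Y := by linarith
  have hlog := s2_log hY
  have hll : 0 ≤ 1 + Real.log (Real.log Y) := add_nonneg zero_le_one (Real.log_nonneg hlog)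
  have hpow : Y ^ C₂ ≤ Y ^ C₁ := Real.rpow_le_rpow_of_exponent_le hY1 hC
  intro τ₀ e₀ l lo hi hlh
  have h1 := h τ₀ e₀ l lo hi fun k =>
    ⟨(hlh k).1, (hlh k).2.1, (hlh k).2.2.1, (hlh k).2.2.2.trans hpow⟩
  refine le_trans ?_ (h1.trans (Real.rpow_le_rpow_of_exponent_le hlog (neg_le_neg hA)))
  refine s2_sum _ _ _ _ (fun b _ hb => ⟨hb.1.trans hpow, hb.2.trans ?_⟩) fun b _ => ?_
  · exact mul_le_mul_of_nonneg_right hC hll
  · exact mul_nonneg (mul_nonneg (inv_nonneg.2 (s2_nr _))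
      (inv_nonneg.2 (s2_pr lo fun k => hT.trans (hlh k).1))) (norm_nonneg _)

theorem bxf2_mono [Fintype S] [Fintype P] [NeZero q] {d n : ℕ} {T : ℝ} (hT : 0 ≤ T)
    (Zc : Finset (Pl K))
    (hx : ∀ f : Pl K → Option (Px c), (adf G B X W T Zc f).Jf → Du S q (d + 1) × Du S q (d + 1 + 1))
    (Bf : ∀ i j : ℕ, Gr S i →+ Gr S j →+ ZMod q) (a : Fin n → Px c) (M : ℕ)
    {C₁ C₂ A' A'' Y : ℝ} (hY : 3 ≤ Y) (hC : C₂ ≤ C₁) (hA : A'' ≤ A')
    (h : BxF2 G B X W T Zc hx Bf a M C₁ A' Y) : BxF2 G B X W T Zc hx Bf a M C₂ A'' Y := by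
  have hY1 : (1 : ℝ) ≤ Y := by linarith
  have hlog := s2_log hY
  have hll : 0 ≤ 1 + Real.log (Real.log Y) := add_nonneg zero_le_one (Real.log_nonneg hlog)
  have hpow : Y ^ C₂ ≤ Y ^ C₁ := Real.rpow_le_rpow_of_exponent_le hY1 hC
  intro τ₀ e₀ l lo hi hlh
  have h1 := h τ₀ e₀ l lo hi fun k =>
    ⟨(hlh k).1, (hlh k).2.1, (hlh k).2.2.1, (hlh k).2.2.2.trans hpow⟩
  refine le_trans ?_ (h1.trans (Real.rpow_le_rpow_of_exponent_le hlog (neg_le_neg hA)))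
  refine s2_sum _ _ _ _ (fun b _ hb => ⟨hb.1.trans hpow, hb.2.trans ?_⟩) fun b _ => ?_
  · exact mul_le_mul_of_nonneg_right hC hll
  · exact mul_nonneg (mul_nonneg (inv_nonneg.2 (s2_nr _))
      (inv_nonneg.2 (s2_pr lo fun k => hT.trans (hlh k).1))) (norm_nonneg _)

end mono

/-- the forms on the middle layer are alternating for odd `p` -/
private theorem s2_odd (hp : p.Prime) (h2 : p ≠ 2) (hq : ∃ r, q = p ^ r) (a : ZMod q)
    (h : a + a = 0) : a = 0 := by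
  obtain ⟨r, rfl⟩ := hq
  have h3 : Odd (p ^ r) := (hp.odd_of_ne_two h2).pow
  obtain ⟨s, hs⟩ := h3
  have h4 : ((2 * s + 1 : ℕ) : ZMod (p ^ r)) = 0 := by
    rw [← hs]
    exact ZMod.natCast_self _
  have h5 : a * ((2 * s + 1 : ℕ) : ZMod (p ^ r)) = 0 := by
    rw [h4, mul_zero]
  push_cast at h5
  have h6 : a * (2 * (s : ZMod (p ^ r)) + 1) = (a + a) * s + a := by ring
  rw [h6, h, zero_mul, zero_add] at h5
  exact h5

/-- the stage from the split of the negligible part -/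
private theorem s2_stg (hp : p.Prime) [Fintype S] [Fintype P] [NeZero q] (G : SG c S)
    (B : SD D Q A) (m : ℕ) (hm : 1 ≤ m) (M : ℕ) (hM : 1 ≤ M) {c₀ : ℕ} {Y T : ℝ} {k Mw : ℕ}
    (X : FD A P S) (W : WF A) (Zc : Finset (Pl K)) (hok : NgOk G B X W k Mw q c₀ T Zc)
    (ψ : ℝ → ℝ) {b₁ b₂ : ℝ}
    (h1 : ‖NX q G B X W T Zc (wR X W T Zc M ψ Y) m -
        ∑ x ∈ QBs q m G X W ep, NXX G B X W T Zc (wR X W T Zc M ψ Y) x‖ ≤ b₁) (hb : 0 ≤ b₂)
    (h2 : ∀ x ∈ QBs q m G X W ep, ‖NXX G B X W T Zc (wR X W T Zc M ψ Y) x‖ ≤ b₂) :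
    ‖Mm G B X W T Zc (wR X W T Zc M ψ Y) (m + 1) - Mm G B X W T Zc (wR X W T Zc M ψ Y) m‖ ≤
      b₁ + (Fintype.card ((Px c → Du S q m) × (P → Du S q (m + 1))) : ℝ) * b₂ := by
  rw [stg_eq (q := q) (k := k) (Mw := Mw) (c₀ := c₀) hp G B X W T Zc hm, add_sub_cancel_left]
  · have h3 : NX q G B X W T Zc (wR X W T Zc M ψ Y) m =
        (NX q G B X W T Zc (wR X W T Zc M ψ Y) m -
          ∑ x ∈ QBs q m G X W ep, NXX G B X W T Zc (wR X W T Zc M ψ Y) x) +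
          ∑ x ∈ QBs q m G X W ep, NXX G B X W T Zc (wR X W T Zc M ψ Y) x := by ring
    rw [h3]
    refine (norm_add_le _ _).trans (add_le_add h1 ?_)
    refine (norm_sum_le _ _).trans ((Finset.sum_le_card_nsmul _ _ _ h2).trans ?_)
    rw [nsmul_eq_mul]
    refine mul_le_mul_of_nonneg_right ?_ hb
    exact_mod_cast Finset.card_le_univ _
  · intro f _ hw
    have hr : Rich X W T Zc M f := by
      by_contra hc
      exact hw (if_neg hc)
    exact adf_ok hp G B X W hok.okX hok.okW _ Zc hok.ze hok.zc hok.ez f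
      (fun s => le_trans hM (hr s)) hok.pP hok.pS hok.nil hok.qe hok.kM hok.mx hok.qp

/-- THE STAGE THEOREM, no bad quasi Lie functionals -/
theorem stg_gd (hp : p.Prime) [Fintype S] [Fintype P] [NeZero q] (G : SG c S) (B : SD D Q A)
    (m : ℕ) (hm : 1 ≤ m) (hg : p ≠ 2 ∨ m % 2 = 0) (hF : Frw G q m ep) (hV : Frv G q m ep)
    (hGd : Frg G q m ep) (M : ℕ) (hM : m + 2 ≤ M) (c₀ g₀ : ℕ) (A₁ ε : ℝ)
    (hA : 0 ≤ A₁) (hε : 0 < ε) :
    ∃ C₁ A' C : ℝ, 3 ≤ C₁ ∧ 0 ≤ A' ∧ 0 < C ∧ ∀ Y : ℝ, 3 ≤ Y →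
      ∀ (k Mw : ℕ) (X : FD A P S) (W : WF A) (Zc : Finset (Pl K)), X.E.card ≤ g₀ →
        NgOk G B X W k Mw q c₀ (Real.exp (Real.log Y ^ ε)) Zc →
      ∀ ψ : ℝ → ℝ, (∀ t, |ψ t| ≤ 1) → (∀ t, 2 ≤ t → ψ t = 0) → (∀ s t, |ψ s - ψ t| ≤ |s - t|) →
      BxF (q := q) G B X W (Real.exp (Real.log Y ^ ε)) Zc m C₁ A' Y →
      ‖Mm G B X W (Real.exp (Real.log Y ^ ε)) Zc
          (wR X W (Real.exp (Real.log Y ^ ε)) Zc M ψ Y) (m + 1) -
        Mm G B X W (Real.exp (Real.log Y ^ ε)) Zc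
          (wR X W (Real.exp (Real.log Y ^ ε)) Zc M ψ Y) m‖ ≤ C * Y * Real.log Y ^ (-A₁) := by
  obtain ⟨C₁, A', C, h1, h2, h3, h⟩ := H51.OW.neg1 (q := q) hp G B m hm hF hV M hM c₀ g₀ A₁ ε hA hε
  refine ⟨C₁, A', C, h1, h2, h3, fun Y hY k Mw X W Zc hgE hok ψ hψ1 hψ2 hψ3 hb => ?_⟩
  have hkey := h Y hY k Mw X W Zc hgE hok ψ hψ1 hψ2 hψ3 hb
  have h4 := s2_stg (k := k) (Mw := Mw) hp G B m hm M (by omega) X W Zc hok ψ hkey le_rfl
    (fun x hx => le_of_eq ?_)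
  · rwa [mul_zero, add_zero] at h4
  · rw [norm_eq_zero]
    have hx' := hx
    unfold QBs at hx'
    rw [Finset.mem_filter] at hx'
    obtain ⟨Bf, hB⟩ := hx'.2
    have hgd : Gd G.y (Rh X W) x.1 x.2 := by
      refine hGd _ _ _ Bf hB fun i hi1 hi2 u _ => ?_
      rcases hg with hg | hg
      · exact s2_odd hp hg hok.qp _ (hB.sk i i hi1 hi1 (by omega) _ _)
      · omega
    refine H51.OW.nxx_gd (k := k) (Mw := Mw) (c₀ := c₀) G B X W _ Zc hok.ze hok.okX x hgd _ fun f _ hw => ?_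
    have hr : Rich X W (Real.exp (Real.log Y ^ ε)) Zc M f := by
      by_contra hc
      exact hw (if_neg hc)
    exact adf_ok hp G B X W hok.okX hok.okW _ Zc hok.ze hok.zc hok.ez f
      (fun s => le_trans (by omega) (hr s)) hok.pP hok.pS hok.nil hok.qe hok.kM hok.mx hok.qp

/-- THE STAGE THEOREM, `m = 2 h + 1` -/
theorem stg_bd (hp : p.Prime) [Fintype S] [Fintype P] [NeZero q] (G : SG c S) (B : SD D Q A)
    (h : ℕ) (hh : 1 ≤ h) (hF : Frw G q (2 * h + 1) ep) (hV : Frv G q (2 * h + 1) ep)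
    (hGd : Frg G q (2 * h + 1) ep) (M : ℕ) (hM : 2 * h + 1 + 2 ≤ M)
    (hM2 : (2 * h + 1 + 1) * (Fintype.card (Elb2 c S q (2 * h)) * Fintype.card (Gr S 1)) ≤ M)
    (c₀ g₀ : ℕ) (A₁ ε : ℝ) (hA : 0 ≤ A₁) (hε : 0 < ε) :
    ∃ C₁ A' C : ℝ, 3 ≤ C₁ ∧ 0 ≤ A' ∧ 0 < C ∧ ∀ Y : ℝ, 3 ≤ Y →
      ∀ (k Mw : ℕ) (X : FD A P S) (W : WF A) (Zc : Finset (Pl K)), X.E.card ≤ g₀ →
        NgOk G B X W k Mw q c₀ (Real.exp (Real.log Y ^ ε)) Zc →
      ∀ ψ : ℝ → ℝ, (∀ t, |ψ t| ≤ 1) → (∀ t, 2 ≤ t → ψ t = 0) → (∀ s t, |ψ s - ψ t| ≤ |s - t|) →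
      BxF (q := q) G B X W (Real.exp (Real.log Y ^ ε)) Zc (2 * h + 1) C₁ A' Y →
      (∀ x ∈ QBs q (2 * h + 1) G X W ep, ∀ Bf : ∀ i j : ℕ, Gr S i →+ Gr S j →+ ZMod q,
        QB G.y ep (Rh X W) x.1 x.2 Bf → ∀ (r : Px c) (w : Fin h → Px c),
        Bf (h + 1) (h + 1) (gk (h + 1) (rw1 G r w)) (gk (h + 1) (rw1 G r w)) ≠ 0 →
        BxF2 (d := 2 * h) G B X W (Real.exp (Real.log Y ^ ε)) Zc
          (fun f => etX G B X W (Real.exp (Real.log Y ^ ε)) Zc f x) Bf (pat r w) M C₁ A' Y) →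
      ‖Mm G B X W (Real.exp (Real.log Y ^ ε)) Zc
          (wR X W (Real.exp (Real.log Y ^ ε)) Zc M ψ Y) (2 * h + 1 + 1) -
        Mm G B X W (Real.exp (Real.log Y ^ ε)) Zc
          (wR X W (Real.exp (Real.log Y ^ ε)) Zc M ψ Y) (2 * h + 1)‖ ≤
        C * Y * Real.log Y ^ (-A₁) := by
  obtain ⟨C₁, A', C, h1, h2, h3, hn1⟩ :=
    H51.OW.neg1 (q := q) hp G B (2 * h + 1) (by omega) hF hV M hM c₀ g₀ A₁ ε hA hε
  obtain ⟨C₂, A'', C', h4, h5, h6, hn2⟩ :=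
    neg2 (q := q) (d := 2 * h) G B (2 * h + 1) M hM2 c₀ g₀ A₁ ε hA hε
  obtain ⟨Nx, hNx⟩ : ∃ Nx : ℝ, Nx = (Fintype.card ((Px c → Du S q (2 * h + 1)) ×
    (P → Du S q (2 * h + 1 + 1))) : ℝ) := ⟨_, rfl⟩
  have hNx0 : 0 ≤ Nx := by
    rw [hNx]
    exact Nat.cast_nonneg _
  refine ⟨max C₁ C₂, max A' A'', C + Nx * C', h1.trans (le_max_left _ _),
    h2.trans (le_max_left _ _), by positivity,
    fun Y hY k Mw X W Zc hgE hok ψ hψ1 hψ2 hψ3 hb hb2 => ?_⟩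
  have hT : (0 : ℝ) ≤ Real.exp (Real.log Y ^ ε) := (Real.exp_pos _).le
  have hkey := hn1 Y hY k Mw X W Zc hgE hok ψ hψ1 hψ2 hψ3
    (bxf_mono G B X W hT Zc hY (le_max_left _ _) (le_max_left _ _) hb)
  have hlogY : (0 : ℝ) ≤ Real.log Y ^ (-A₁) :=
    Real.rpow_nonneg (Real.log_nonneg (by linarith)) _
  have hb0 : 0 ≤ C' * Y * Real.log Y ^ (-A₁) :=
    mul_nonneg (mul_nonneg h6.le (by linarith)) hlogY
  have hrich : ∀ f : Pl K → Option (Px c), wR X W (Real.exp (Real.log Y ^ ε)) Zc M ψ Y f ≠ 0 →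
      Rich X W (Real.exp (Real.log Y ^ ε)) Zc M f := by
    intro f hw
    by_contra hc
    exact hw (if_neg hc)
  have hOk : ∀ f : Pl K → Option (Px c), wR X W (Real.exp (Real.log Y ^ ε)) Zc M ψ Y f ≠ 0 →
      (adf G B X W (Real.exp (Real.log Y ^ ε)) Zc f).Ok p k Mw q c₀ G.Pi := fun f hw =>
    adf_ok hp G B X W hok.okX hok.okW _ Zc hok.ze hok.zc hok.ez f
      (fun s => le_trans (by omega) (hrich f hw s)) hok.pP hok.pS hok.nil hok.qe hok.kM hok.mx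
      hok.qp
  refine (s2_stg (k := k) (Mw := Mw) hp G B (2 * h + 1) (by omega) M (by omega) X W Zc hok ψ hkey
    hb0 (fun x hx => ?_)).trans (le_of_eq ?_)
  · by_cases hgd : Gd G.y (Rh X W) x.1 x.2
    · rw [H51.OW.nxx_gd (k := k) (Mw := Mw) (c₀ := c₀) G B X W _ Zc hok.ze hok.okX x hgd _
        fun f _ hw => hOk f hw, norm_zero]
      exact hb0
    · have hx' := hx
      unfold QBs at hx'
      rw [Finset.mem_filter] at hx'
      obtain ⟨Bf, hB⟩ := hx'.2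
      have hZ0 : Disjoint Zc D.S0 :=
        Finset.disjoint_left.2 fun v hv hv' => hok.okW.zs v (hok.zc hv) hv'
      have hex : ∃ u ∈ gm S (h + 1), Bf (h + 1) (h + 1) (gk (h + 1) u) (gk (h + 1) u) ≠ 0 := by
        by_contra hc
        push Not at hc
        refine hgd (hGd _ _ _ Bf hB fun i hi1 hi2 u hu => ?_)
        obtain rfl : i = h + 1 := by omega
        exact hc u hu
      obtain ⟨w, hw1, hw2⟩ := bad_word G.gen (by omega) (Bf (h + 1) (h + 1))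
        (hB.sk (h + 1) (h + 1) (by omega) (by omega) (by omega)) hex
      rcases w with _ | ⟨r, w⟩
      · simp at hw1
      have hw3 : w.length = h := by simpa using hw1
      subst hw3
      have hw4 : rw1 G r w.get = H62.BL.rn ((r :: w).map G.y) := by
        unfold rw1
        rw [List.map_cons]
        congr 2
        conv_rhs => rw [← List.ofFn_get w, List.map_ofFn]
        rfl
      have hbx := hb2 x hx Bf hB r w.get (by rw [hw4]; exact hw2)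
      rw [nxx_bd (k := k) (Mw := Mw) (c₀ := c₀) G B X W hp (by omega) _ Zc hok.ze hZ0 hok.okX hV x
        hx hgd Bf hB _ (fun f hf s => le_trans (by omega) (hrich f hf s)) hOk]
      exact hn2 Y hY k Mw X W Zc hgE hok ψ hψ1 hψ2 hψ3
        (fun f => etX G B X W (Real.exp (Real.log Y ^ ε)) Zc f x) Bf (pat r w.get)
        (hxn_etX G B X W _ Zc x)
        (bxf2_mono G B X W hT Zc _ Bf _ M hY (le_max_right _ _) (le_max_right _ _) hbx)
  · rw [← hNx]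
    ring

end H73.OW
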