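import Pool.Agent.H73.OW.Two
import Pool.Agent.H73.S3.Fou
import Pool.Agent.H73.S3.Ker
import Pool.Agent.H61.Tu.GamComm

/-!
# [H73 OW FOU2] the second Fourier expansion (MP_b39724_nt, theorem OW)

`four2`: `Hh (d+1) τ x η = ∑_ζ Hhh τ x ζ` over the families `ζ` with `Ff2` above `η` (`rz ζ = η`). Proof as H73/S3/Fou, `hh_mv` of H73/S3/Ker.
-/

set_option autoImplicit false

open scoped commutatorElement
open scoped Classical

noncomputable section

namespace H73.OW

open H1.S3 H73.S3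

attribute [local instance 50] Fintype.ofFinite

variable {S P : Type} [Group S] [Group P] [MulDistribMulAction P S] {J V : Type} {q d : ℕ}

theorem gm_comm2 {i j : ℕ} (hi : 1 ≤ i) (hj : 1 ≤ j) {u v : S} (hu : u ∈ gm S i) (hv : v ∈ gm S j) :
    ⁅u, v⁆ ∈ gm S (i + j) := by
  obtain ⟨a, rfl⟩ : ∃ a, i = a + 1 := ⟨i - 1, by omega⟩
  obtain ⟨b, rfl⟩ : ∃ b, j = b + 1 := ⟨j - 1, by omega⟩
  have h := Pool.Agent.H61.Tu.commutator_mem_gam' (G := S) (i := a) (j := b) hu hv
  have e : a + 1 + (b + 1) = a + b + 1 + 1 := by omega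
  rw [e]
  exact h

theorem kz_eq (hd : 2 ≤ d) : kz S d = gm S (d + 2) := by
  unfold kz
  refine sup_eq_left.2 ?_
  refine (Subgroup.commutator_le.2 fun u hu v hv => ?_ : ⁅gm S d, gm S d⁆ ≤ gm S (d + 2))
  exact gm_le (by omega) (gm_comm2 (by omega) (by omega) hu hv)

theorem gz_pow {m : ℕ} {u : S} (hu : u ∈ gm S m) (n : ℕ) : gz m (u ^ n) = n • gz m u := by
  induction n with
  | zero => rw [pow_zero, gz_one, zero_smul]
  | succ n ih => rw [pow_succ, gz_mul (pow_mem hu n) hu, ih, succ_nsmul]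

theorem gz_exp {q : ℕ} (hq : ∀ s : S, s ^ q = 1) (m : ℕ) (a : Gz S m) : q • a = 0 := by
  obtain ⟨u, hu, rfl⟩ := gz_surj m a
  rw [← gz_pow hu, hq, gz_one]

/-- the character of a functional -/
def dzc (q m : ℕ) [NeZero q] (χ : Dz S q m) : AddChar (Gz S m) ℂ :=
  (ZMod.stdAddChar (N := q)).compAddMonoidHom χ.ap

theorem dzc_apply (q m : ℕ) [NeZero q] (χ : Dz S q m) (a : Gz S m) :
    dzc q m χ a = H63.MA.ep q (χ.ap a) := by
  rw [H63.MA.rayc_std]
  rfl

theorem dzc_bij {q : ℕ} [NeZero q] (hq : ∀ s : S, s ^ q = 1) (m : ℕ) :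
    Function.Bijective (dzc (S := S) q m) := by
  constructor
  · intro χ ξ h
    refine dz_ext fun a => ?_
    have h1 := DFunLike.congr_fun h a
    exact ZMod.injective_stdAddChar h1
  · intro ψ
    have h1 : ∀ a : Gz S m, ∃ x : ZMod q, ZMod.stdAddChar x = ψ a := by
      intro a
      have h2 : ψ a ^ q = 1 := by
        rw [← AddChar.map_nsmul_eq_pow, gz_exp hq, AddChar.map_zero_eq_one]
      obtain ⟨i, -, hi⟩ := (Complex.isPrimitiveRoot_exp q (NeZero.ne q)).eq_pow_of_pow_eq_one h2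
      refine ⟨(i : ZMod q), ?_⟩
      rw [← H63.MA.rayc_std, epq_nat, hi]
    choose f hf using h1
    refine ⟨(AddMonoidHom.mk' f fun a b => ?_ : Gz S m →+ ZMod q), ?_⟩
    · apply ZMod.injective_stdAddChar
      rw [hf, AddChar.map_add_eq_mul, AddChar.map_add_eq_mul, hf, hf]
    · ext a
      exact hf a

theorem dz_sum {q : ℕ} [NeZero q] [Finite S] (hq : ∀ s : S, s ^ q = 1) (m : ℕ) (a : Gz S m) :
    ∑ χ : Dz S q m, H63.MA.ep q (χ.ap a) = if a = 0 then (Nat.card (Gz S m) : ℂ) else 0 := by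
  have h1 : ∑ χ : Dz S q m, H63.MA.ep q (χ.ap a) = ∑ ψ : AddChar (Gz S m) ℂ, ψ a := by
    refine Fintype.sum_bijective _ (dzc_bij hq m) _ _ fun χ => ?_
    rw [dzc_apply]
  rw [h1, AddChar.sum_apply_eq_ite, Nat.card_eq_fintype_card]

theorem gz_card [Finite S] (m : ℕ) :
    Nat.card (gm S m) = Nat.card (Gz S m) * Nat.card (kz S m) := by
  have h1 : Nat.card (Gz S m) = ((kz S m).subgroupOf (gm S m)).index := rfl
  have h2 := ((kz S m).subgroupOf (gm S m)).card_mul_index
  have h3 : Nat.card ((kz S m).subgroupOf (gm S m)) = Nat.card (kz S m) :=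
    Nat.card_congr (Subgroup.subgroupOfEquivOfLe (kz_le m)).toEquiv
  rw [h1, ← h2, h3, mul_comm]

/-- the changes in the kernels -/
def ck [Fintype S] (X : AD S P J V) (d : ℕ) : Finset (X.Jf → S) :=
  Finset.univ.filter fun u => ∀ j : X.Jf, u j ∈ kz S (if X.pp j then d else d + 1)

theorem ck_card [Fintype S] (X : AD S P J V) (m : ℕ) :
    (ck X m).card = ∏ j : X.Jf, Nat.card (kz S (if X.pp j then m else m + 1)) := by
  have h1 : ck X m = Fintype.piFinset fun j : X.Jf =>
      Finset.univ.filter fun s : S => s ∈ kz S (if X.pp j then m else m + 1) := by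
    ext u
    unfold ck
    rw [Finset.mem_filter, Fintype.mem_piFinset]
    simp
  rw [h1, Fintype.card_piFinset]
  refine Finset.prod_congr rfl fun j _ => ?_
  rw [Nat.card_eq_fintype_card, Fintype.card_subtype]

theorem ck_sub [Fintype S] (X : AD S P J V) (m : ℕ) : ck X m ⊆ X.Cg m := by
  intro u hu
  unfold ck at hu
  unfold AD.Cg
  rw [Finset.mem_filter] at *
  exact ⟨Finset.mem_univ _, fun j => kz_le _ (hu.2 j)⟩

/-- the sum of a family over the functionals -/
theorem ff2_sum [Fintype S] (X : AD S P J V) [NeZero q] (hq : ∀ s : S, s ^ q = 1)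
    (u : X.Jf → S) (hu : u ∈ X.Cg d) :
    ∑ ζ ∈ Finset.univ.filter fun ζ : X.Jf → Dz S q d × Dz S q (d + 1) => X.Ff2 ζ,
      H63.MA.ep q (-X.pr2 ζ u) =
    if u ∈ ck X d then ∏ j : X.Jf, (Nat.card (Gz S (if X.pp j then d else d + 1)) : ℂ) else 0 := by
  obtain ⟨D, hD⟩ : ∃ D : X.Jf → Finset (Dz S q d × Dz S q (d + 1)), D = fun j : X.Jf =>
    if X.pp j then (Finset.univ : Finset (Dz S q d)) ×ˢ ({0} : Finset (Dz S q (d + 1)))
    else ({0} : Finset (Dz S q d)) ×ˢ (Finset.univ : Finset (Dz S q (d + 1))) := ⟨_, rfl⟩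
  have h1 : (Finset.univ.filter fun ζ : X.Jf → Dz S q d × Dz S q (d + 1) => X.Ff2 ζ) =
      Fintype.piFinset D := by
    ext ζ
    rw [Finset.mem_filter, Fintype.mem_piFinset, hD]
    unfold AD.Ff2
    refine ⟨fun h j => ?_, fun h => ⟨Finset.mem_univ _, fun j => ?_⟩⟩
    · have h2 := h.2 j
      beta_reduce
      split_ifs at h2 ⊢
      · rw [Finset.mem_product, Finset.mem_singleton]
        exact ⟨Finset.mem_univ _, h2⟩
      · rw [Finset.mem_product, Finset.mem_singleton]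
        exact ⟨h2, Finset.mem_univ _⟩
    · have h2 := h j
      beta_reduce at h2
      split_ifs at h2 ⊢
      · rw [Finset.mem_product, Finset.mem_singleton] at h2
        exact h2.2
      · rw [Finset.mem_product, Finset.mem_singleton] at h2
        exact h2.1
  rw [h1]
  have h2 : ∀ ζ ∈ Fintype.piFinset D, H63.MA.ep q (-X.pr2 ζ u) = ∏ j : X.Jf,
      H63.MA.ep q (-(if X.pp j then (ζ j).1.ap (gz d (u j)) else (ζ j).2.ap (gz (d + 1) (u j)))) := by
    intro ζ _
    unfold AD.pr2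
    rw [← Finset.sum_neg_distrib, epq_sum]
  rw [Finset.sum_congr rfl h2, ← Finset.prod_univ_sum D fun j (z : Dz S q d × Dz S q (d + 1)) =>
    H63.MA.ep q (-(if X.pp j then z.1.ap (gz d (u j)) else z.2.ap (gz (d + 1) (u j))))]
  have h3 : ∀ j : X.Jf, ∑ z ∈ D j, H63.MA.ep q
      (-(if X.pp j then z.1.ap (gz d (u j)) else z.2.ap (gz (d + 1) (u j)))) =
      if u j ∈ kz S (if X.pp j then d else d + 1) then
        (Nat.card (Gz S (if X.pp j then d else d + 1)) : ℂ) else 0 := by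
    intro j
    unfold AD.Cg at hu
    rw [Finset.mem_filter] at hu
    have hj := hu.2 j
    rw [hD]
    beta_reduce
    by_cases h4 : X.pp j
    · simp only [if_pos h4] at hj ⊢
      rw [Finset.sum_product]
      simp only [Finset.sum_singleton]
      have h5 : ∀ χ : Dz S q d, -χ.ap (gz d (u j)) = χ.ap (-gz d (u j)) := fun χ => (map_neg _ _).symm
      simp only [h5]
      rw [dz_sum hq]
      simp only [neg_eq_zero, gz_zero hj]
    · simp only [if_neg h4] at hj ⊢
      rw [Finset.sum_product, Finset.sum_singleton]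
      have h5 : ∀ χ : Dz S q (d + 1), -χ.ap (gz (d + 1) (u j)) = χ.ap (-gz (d + 1) (u j)) :=
        fun χ => (map_neg _ _).symm
      simp only [h5]
      rw [dz_sum hq]
      simp only [neg_eq_zero, gz_zero hj]
  rw [Finset.prod_congr rfl fun j _ => h3 j]
  split_ifs with h4
  · unfold ck at h4
    rw [Finset.mem_filter] at h4
    exact Finset.prod_congr rfl fun j _ => if_pos (h4.2 j)
  · unfold ck at h4
    rw [Finset.mem_filter] at h4
    push Not at h4
    obtain ⟨j, hj⟩ := h4 (Finset.mem_univ _)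
    exact Finset.prod_eq_zero (Finset.mem_univ j) (if_neg hj)

theorem cg_anti [Fintype S] (X : AD S P J V) (m : ℕ) : X.Cg (m + 1) ⊆ X.Cg m := by
  intro u hu
  unfold AD.Cg at *
  rw [Finset.mem_filter] at *
  refine ⟨Finset.mem_univ _, fun j => ?_⟩
  have := hu.2 j
  split_ifs at this ⊢
  · exact gm_anti m this
  · exact gm_anti (m + 1) this

/-- `pr2` is additive -/
theorem pr2_mul [Fintype S] (X : AD S P J V) (ζ : X.Jf → Dz S q d × Dz S q (d + 1)) {w u : X.Jf → S}
    (hw : w ∈ X.Cg d) (hu : u ∈ X.Cg d) : X.pr2 ζ (w * u) = X.pr2 ζ w + X.pr2 ζ u := by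
  unfold AD.Cg at hw hu
  rw [Finset.mem_filter] at hw hu
  unfold AD.pr2
  rw [← Finset.sum_add_distrib]
  refine Finset.sum_congr rfl fun j _ => ?_
  have h1 := hw.2 j
  have h2 := hu.2 j
  show (if X.pp j then (ζ j).1.ap (gz d (w j * u j)) else (ζ j).2.ap (gz (d + 1) (w j * u j))) = _
  by_cases hp : X.pp j
  · rw [if_pos hp] at h1 h2
    rw [if_pos hp, if_pos hp, if_pos hp, gz_mul h1 h2, map_add]
  · rw [if_neg hp] at h1 h2
    rw [if_neg hp, if_neg hp, if_neg hp, gz_mul h1 h2, map_add]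

/-- on `Cg (d + 1)`: the restriction -/
theorem pr2_rz [Fintype S] (X : AD S P J V) (ζ : X.Jf → Dz S q d × Dz S q (d + 1)) {u : X.Jf → S}
    (hu : u ∈ X.Cg (d + 1)) : X.pr2 ζ u = X.pr (X.rz ζ) u := by
  unfold AD.Cg at hu
  rw [Finset.mem_filter] at hu
  unfold AD.pr2 AD.pr AD.rz
  refine Finset.sum_congr rfl fun j _ => ?_
  have h1 := hu.2 j
  by_cases hp : X.pp j
  · rw [if_pos hp] at h1
    rw [if_pos hp, if_pos hp, if_pos hp]
    exact (rs_gk _ h1).symm
  · rw [if_neg hp] at h1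
    rw [if_neg hp, if_neg hp, if_neg hp]
    exact (rs_gk _ h1).symm

theorem ep_one_iff {q : ℕ} [NeZero q] (a : ZMod q) : H63.MA.ep q a = 1 ↔ a = 0 := by
  constructor
  · intro h
    rw [H63.MA.rayc_std, ← AddChar.map_zero_eq_one (ZMod.stdAddChar (N := q))] at h
    exact ZMod.injective_stdAddChar h
  · rintro rfl
    exact H63.MA.ep_zero q

/-- a family which is not above `η` -/
theorem hhh_ne [Fintype S] [NeZero q] (X : AD S P J V) (τ : V → S) (x : J → SP S P)
    (η : X.Jf → Du S q (d + 1) × Du S q (d + 1 + 1)) (hη : X.Ff η)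
    (ζ : X.Jf → Dz S q d × Dz S q (d + 1)) (h : X.rz ζ ≠ η) :
    ∑ u ∈ X.Cg d, X.Hh (d + 1) τ (X.mv u x) η * H63.MA.ep q (-X.pr2 ζ u) = 0 := by
  obtain ⟨w, hw, hne⟩ : ∃ w ∈ X.Cg (d + 1), X.pr η w ≠ X.pr2 ζ w := by
    obtain ⟨j, hj⟩ := Function.ne_iff.1 h
    have key : ∃ s ∈ gm S (if X.pp j then d + 1 else d + 1 + 1),
        (if X.pp j then (η j).1.ap (gk (d + 1) s) else (η j).2.ap (gk (d + 1 + 1) s)) ≠
        if X.pp j then (X.rz ζ j).1.ap (gk (d + 1) s) else (X.rz ζ j).2.ap (gk (d + 1 + 1) s) := by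
      by_contra hc
      push Not at hc
      apply hj
      have h3 := hη j
      by_cases hp : X.pp j
      · simp only [if_pos hp] at hc h3
        refine Prod.ext (du_ext fun a => ?_) ?_
        · obtain ⟨s, hs, rfl⟩ := gk_surj (d + 1) a
          exact (hc s hs).symm
        · rw [h3]
          unfold AD.rz
          rw [if_pos hp]
      · simp only [if_neg hp] at hc h3
        refine Prod.ext ?_ (du_ext fun a => ?_)
        · rw [h3]
          unfold AD.rz
          rw [if_neg hp]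
        · obtain ⟨s, hs, rfl⟩ := gk_surj (d + 1 + 1) a
          exact (hc s hs).symm
    obtain ⟨s, hs, hs2⟩ := key
    obtain ⟨w, hwd⟩ : ∃ w : X.Jf → S, w = Function.update (fun _ => 1) j s := ⟨_, rfl⟩
    have hwj : w j = s := by rw [hwd, Function.update_self]
    have hwi : ∀ i, i ≠ j → w i = 1 := fun i hi => by rw [hwd, Function.update_of_ne hi]
    have hwc : w ∈ X.Cg (d + 1) := by
      unfold AD.Cg
      rw [Finset.mem_filter]
      refine ⟨Finset.mem_univ _, fun i => ?_⟩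
      by_cases hi : i = j
      · rw [hi, hwj]
        exact hs
      · rw [hwi i hi]
        exact one_mem _
    refine ⟨w, hwc, ?_⟩
    rw [pr2_rz X ζ hwc]
    unfold AD.pr
    rw [Finset.sum_eq_single j, Finset.sum_eq_single j, hwj]
    · exact hs2
    · intro i _ hi
      rw [hwi i hi, gk_one, gk_one, map_zero, map_zero, ite_self]
    · intro h0
      exact absurd (Finset.mem_univ _) h0
    · intro i _ hi
      rw [hwi i hi, gk_one, gk_one, map_zero, map_zero, ite_self]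
    · intro h0
      exact absurd (Finset.mem_univ _) h0
  have hwd : w ∈ X.Cg d := cg_anti X d hw
  have h1 : ∑ u ∈ X.Cg d, X.Hh (d + 1) τ (X.mv u x) η * H63.MA.ep q (-X.pr2 ζ u) =
      H63.MA.ep q (X.pr η w - X.pr2 ζ w) *
        ∑ u ∈ X.Cg d, X.Hh (d + 1) τ (X.mv u x) η * H63.MA.ep q (-X.pr2 ζ u) := by
    rw [Finset.mul_sum]
    symm
    refine Finset.sum_bij' (fun u _ => w * u) (fun u _ => w⁻¹ * u) ?_ ?_ ?_ ?_ ?_
    · intro u hu
      exact cg_mul X hwd hu
    · intro u hu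
      exact cg_mul X (cg_inv X hwd) hu
    · intro u _
      exact inv_mul_cancel_left w u
    · intro u _
      exact mul_inv_cancel_left w u
    · intro u hu
      rw [← mv_mv, hh_mv X (by omega) τ (X.mv u x) η w hw, pr2_mul X ζ hwd hu, sub_eq_add_neg,
        epq_add, neg_add, epq_add]
      ring
  have h2 : H63.MA.ep q (X.pr η w - X.pr2 ζ w) ≠ 1 := fun h => hne (sub_eq_zero.1 ((ep_one_iff _).1 h))
  have h3 : (H63.MA.ep q (X.pr η w - X.pr2 ζ w) - 1) *
      ∑ u ∈ X.Cg d, X.Hh (d + 1) τ (X.mv u x) η * H63.MA.ep q (-X.pr2 ζ u) = 0 := by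
    rw [sub_mul, one_mul, ← h1, sub_self]
  exact (mul_eq_zero.1 h3).resolve_left (sub_ne_zero.2 h2)

/-- THE SECOND EXPANSION -/
theorem four2 [Fintype S] (X : AD S P J V) [NeZero q] (hq : ∀ s : S, s ^ q = 1) (hd : 2 ≤ d)
    (τ : V → S) (x : J → SP S P) (η : X.Jf → Du S q (d + 1) × Du S q (d + 1 + 1)) (hη : X.Ff η) :
    X.Hh (d + 1) τ x η = ∑ ζ ∈ Finset.univ.filter
      (fun ζ : X.Jf → Dz S q d × Dz S q (d + 1) => X.Ff2 ζ ∧ X.rz ζ = η), X.Hhh τ x ζ := by
  have h0 : ((X.Cg d).card : ℂ) ≠ 0 := by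
    rw [Nat.cast_ne_zero, cg_card]
    exact Finset.prod_ne_zero_iff.2 fun j _ => Nat.card_pos.ne'
  have h1 : ((X.Cg d).card : ℂ) = (∏ j : X.Jf, (Nat.card (Gz S (if X.pp j then d else d + 1)) : ℂ)) *
      ((ck X d).card : ℂ) := by
    rw [cg_card, ck_card]
    push_cast
    rw [← Finset.prod_mul_distrib]
    refine Finset.prod_congr rfl fun j _ => ?_
    rw [gz_card (if X.pp j then d else d + 1)]
    push_cast
    rfl
  have h4 : ∑ ζ ∈ Finset.univ.filter
      (fun ζ : X.Jf → Dz S q d × Dz S q (d + 1) => X.Ff2 ζ ∧ X.rz ζ = η), X.Hhh τ x ζ =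
      ∑ ζ ∈ Finset.univ.filter (fun ζ : X.Jf → Dz S q d × Dz S q (d + 1) => X.Ff2 ζ),
        (∑ u ∈ X.Cg d, X.Hh (d + 1) τ (X.mv u x) η * H63.MA.ep q (-X.pr2 ζ u)) /
          ((X.Cg d).card : ℂ) := by
    rw [← Finset.filter_filter]
    rw [Finset.sum_filter (s := Finset.univ.filter
      (fun ζ : X.Jf → Dz S q d × Dz S q (d + 1) => X.Ff2 ζ))]
    refine Finset.sum_congr rfl fun ζ _ => ?_
    split_ifs with h5
    · unfold AD.Hhh
      rw [h5]
    · rw [hhh_ne X τ x η hη ζ h5, zero_div]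
  have h2 : ∑ ζ ∈ Finset.univ.filter (fun ζ : X.Jf → Dz S q d × Dz S q (d + 1) => X.Ff2 ζ),
        (∑ u ∈ X.Cg d, X.Hh (d + 1) τ (X.mv u x) η * H63.MA.ep q (-X.pr2 ζ u)) /
          ((X.Cg d).card : ℂ) = (∑ u ∈ X.Cg d, X.Hh (d + 1) τ (X.mv u x) η *
        ∑ ζ ∈ Finset.univ.filter (fun ζ : X.Jf → Dz S q d × Dz S q (d + 1) => X.Ff2 ζ),
          H63.MA.ep q (-X.pr2 ζ u)) / ((X.Cg d).card : ℂ) := by
    rw [← Finset.sum_div, Finset.sum_comm]
    simp only [Finset.mul_sum]
  have h3 : ∀ u ∈ X.Cg d, X.Hh (d + 1) τ (X.mv u x) η *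
        ∑ ζ ∈ Finset.univ.filter (fun ζ : X.Jf → Dz S q d × Dz S q (d + 1) => X.Ff2 ζ),
          H63.MA.ep q (-X.pr2 ζ u) =
      if u ∈ ck X d then X.Hh (d + 1) τ x η *
        ∏ j : X.Jf, (Nat.card (Gz S (if X.pp j then d else d + 1)) : ℂ) else 0 := by
    intro u hu
    rw [ff2_sum X hq u hu]
    split_ifs with h4
    · unfold ck at h4
      rw [Finset.mem_filter] at h4
      have h5 : ∀ j : X.Jf, u j ∈ gm S (if X.pp j then d + 1 + 1 else d + 1 + 1 + 1) := by
        intro j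
        have h6 := h4.2 j
        by_cases hp : X.pp j
        · rw [if_pos hp] at h6 ⊢
          rw [kz_eq hd] at h6
          exact h6
        · rw [if_neg hp] at h6 ⊢
          rw [kz_eq (by omega)] at h6
          exact h6
      have h6 : u ∈ X.Cg (d + 1) := by
        unfold AD.Cg
        rw [Finset.mem_filter]
        refine ⟨Finset.mem_univ _, fun j => ?_⟩
        have h7 := h5 j
        by_cases hp : X.pp j
        · rw [if_pos hp] at h7 ⊢
          exact gm_anti _ h7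
        · rw [if_neg hp] at h7 ⊢
          exact gm_anti _ h7
      have h7 : X.pr η u = 0 := by
        unfold AD.pr
        refine Finset.sum_eq_zero fun j _ => ?_
        have h8 := h5 j
        by_cases hp : X.pp j
        · rw [if_pos hp] at h8 ⊢
          rw [(gk_zero (gm_anti _ h8)).2 h8, map_zero]
        · rw [if_neg hp] at h8 ⊢
          rw [(gk_zero (gm_anti _ h8)).2 h8, map_zero]
      rw [hh_mv X (by omega) τ x η u h6, h7, epq_zero, one_mul]
    · rw [mul_zero]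
  rw [h4, h2, Finset.sum_congr rfl h3, ← Finset.sum_filter, Finset.sum_const, nsmul_eq_mul,
    Finset.filter_mem_eq_inter, Finset.inter_eq_right.2 (ck_sub X d), eq_div_iff h0, h1]
  ring

end H73.OW
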