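import Pool.Agent.H73.OW.Fou2
import Pool.Agent.H71.S3.Tva

/-!
# [H73 OW CHG] the change of the values and of the phase (MP_b39724_nt, theorem OW)

`chg_uz`: `chg τ z j = uz τ z j` (H71/S3/Sdp), `chg_mem`: in `gam_(d+1)`. `chg_mul`: `chg τ (z z') = chg (τ z) z' * chg τ z`. `chg_inv`: `chg (τ z') z = chg τ z` modulo `gam_(d+3)`.
`lw_cg`: the law does not change under `Cg d`. `f2_inv`: `F2 (τ z') z = F2 τ z`, `f2_mul`: `F2 τ (z z') = F2 τ z + F2 τ z'`.
-/

set_option autoImplicit false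

open scoped commutatorElement
open scoped Classical

noncomputable section

namespace H73.OW

open H1.S3 H73.S3 H71.S3

attribute [local instance 50] Fintype.ofFinite

variable {S P : Type} [Group S] [Group P] [MulDistribMulAction P S] {J V : Type} {q d : ℕ}

section cong

/-- congruence modulo `gam_n` -/
def Cn (n : ℕ) (u v : S) : Prop := u * v⁻¹ ∈ gm S n

theorem Cn.rfl' (n : ℕ) (u : S) : Cn n u u := by
  unfold Cn
  rw [mul_inv_cancel]
  exact one_mem _

theorem Cn.trans {n : ℕ} {u v w : S} (h : Cn n u v) (h' : Cn n v w) : Cn n u w := by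
  unfold Cn at *
  have h2 : u * w⁻¹ = (u * v⁻¹) * (v * w⁻¹) := by group
  rw [h2]
  exact mul_mem h h'

theorem Cn.symm {n : ℕ} {u v : S} (h : Cn n u v) : Cn n v u := by
  unfold Cn at *
  have h2 : v * u⁻¹ = (u * v⁻¹)⁻¹ := by group
  rw [h2]
  exact inv_mem h

theorem Cn.mul {n : ℕ} {u v u' v' : S} (h : Cn n u v) (h' : Cn n u' v') :
    Cn n (u * u') (v * v') := by
  unfold Cn at *
  have h2 : u * u' * (v * v')⁻¹ = (u * (u' * v'⁻¹) * u⁻¹) * (u * v⁻¹) := by group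
  rw [h2]
  exact mul_mem ((gm_normal n).conj_mem _ h' u) h

theorem Cn.inv {n : ℕ} {u v : S} (h : Cn n u v) : Cn n u⁻¹ v⁻¹ := by
  unfold Cn at *
  have h2 : u⁻¹ * v⁻¹⁻¹ = u⁻¹ * (u * v⁻¹)⁻¹ * u⁻¹⁻¹ := by group
  rw [h2]
  exact (gm_normal n).conj_mem _ (inv_mem h) _

theorem Cn.cjl {n : ℕ} {u v : S} (h : Cn n u v) (y : SP S P) : Cn n (cjl y u) (cjl y v) := by
  unfold Cn at *
  have h2 : H71.S3.cjl y u * (H71.S3.cjl y v)⁻¹ = H71.S3.cjl y (u * v⁻¹) := by
    apply il_inj (P := P)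
    rw [il_mul, il_inv, ← cjl_il, ← cjl_il, ← cjl_il, il_mul, il_inv]
    group
  rw [h2]
  exact cjl_mem y h

/-- conjugation of an element of `gam_j` by an element of `gam_i` -/
theorem cn_conj {i j n : ℕ} (hi : 1 ≤ i) (hj : 1 ≤ j) (h : n ≤ i + j) {e u : S} (he : e ∈ gm S i)
    (hu : u ∈ gm S j) : Cn n (e * u * e⁻¹) u := by
  unfold Cn
  have h2 : e * u * e⁻¹ * u⁻¹ = ⁅e, u⁆ := by rw [commutatorElement_def]
  rw [h2]
  exact gm_le h (gm_comm2 hi hj he hu)

theorem cn_gk {n : ℕ} {u v : S} (hu : u ∈ gm S n) (h : Cn (n + 1) u v) : gk n u = gk n v := by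
  unfold Cn at h
  have hv : v ∈ gm S n := by
    have h2 : v = (u * v⁻¹)⁻¹ * u := by group
    rw [h2]
    exact mul_mem (inv_mem (gm_anti n h)) hu
  have h3 : u = (u * v⁻¹) * v := by group
  rw [h3, gk_mul (gm_anti n h) hv, (gk_zero (gm_anti n h)).2 h, zero_add]

theorem cn_gz {n : ℕ} {u v : S} (hu : u ∈ gm S n) (h : Cn (n + 2) u v) : gz n u = gz n v := by
  unfold Cn at h
  have h0 : u * v⁻¹ ∈ gm S n := gm_le (by omega) h
  have hv : v ∈ gm S n := by
    have h2 : v = (u * v⁻¹)⁻¹ * u := by group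
    rw [h2]
    exact mul_mem (inv_mem h0) hu
  have h3 : u = (u * v⁻¹) * v := by group
  rw [h3, gz_mul h0 hv, (gz_zero h0).2 (kz_ge n h), zero_add]

theorem Cn.le {n m : ℕ} (h : n ≤ m) {u v : S} (hu : Cn m u v) : Cn n u v := gm_le h hu

end cong

theorem cjl_ilm (e : S) (y : SP S P) (u : S) : cjl (il e * y) u = e * cjl y u * e⁻¹ := by
  apply il_inj (P := P)
  rw [← cjl_il, il_mul, il_mul, il_inv, ← cjl_il]
  group

theorem cjl_mli (e : S) (y : SP S P) (u : S) : cjl (y * il e) u = cjl y (e * u * e⁻¹) := by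
  apply il_inj (P := P)
  rw [← cjl_il, ← cjl_il, il_mul, il_mul, il_inv]
  group

section ad

variable (X : AD S P J V)

theorem chg_uz (τ z : V → S) (j : X.Jf) : X.chg τ z j = uz X τ z j := by
  unfold AD.chg
  rw [uz_il, mul_inv_cancel_right]
  rfl

theorem ppl_iff {p k Mw c : ℕ} {P' : Type} [Group P'] {Pi : SP S P →* P'}
    (hX : X.Ok p k Mw q c Pi) {j : J} (hj : j ∈ X.Jf) : X.ppl (X.pj j) ↔ X.pp j := by
  constructor
  · rintro ⟨i, hi, hp, hij⟩
    have h1 := hX.pb i hi hp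
    have h2 := (hX.jl j hj).2
    rw [← hij, h1, List.mem_singleton] at h2
    rw [h2]
    exact hp
  · intro hp
    exact ⟨j, hj, hp, rfl⟩

theorem zok_of {p k Mw c : ℕ} {P' : Type} [Group P'] {Pi : SP S P →* P'}
    (hX : X.Ok p k Mw q c Pi) {z : V → S} (hz : X.Zg d z) : Zok X d z := by
  intro j hj
  have h1 := hz (X.pj j)
  by_cases hp : X.pp j
  · rw [if_pos ((ppl_iff X hX hj).2 hp)] at h1
    rw [if_pos hp]
    exact h1
  · rw [if_neg fun h => hp ((ppl_iff X hX hj).1 h)] at h1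
    rw [if_neg hp]
    exact h1

theorem zok_d {z : V → S} (hz : Zok X d z) {j : J} (hj : j ∈ X.Jf) : z (X.pj j) ∈ gm S d := by
  have h1 := hz j hj
  by_cases hp : X.pp j
  · rw [if_pos hp] at h1
    exact h1
  · rw [if_neg hp] at h1
    exact gm_anti d h1

theorem chg_mem {p k Mw c : ℕ} {P' : Type} [Group P'] {Pi : SP S P →* P'}
    (hX : X.Ok p k Mw q c Pi) (τ : V → S) {z : V → S} (hz : X.Zg d z) (j : X.Jf) :
    X.chg τ z j ∈ gm S (d + 1) := by
  rw [chg_uz]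
  exact (uz_mem X hX (zok_of X hX hz) j.2).1

/-- the values after the change -/
theorem vl_chg (τ z : V → S) (j : J) (hj : j ∈ X.Jf) :
    X.vl (fun v => τ v * z v) j = X.mv (X.chg τ z) (X.vl τ) j := by
  unfold AD.mv
  rw [dif_pos hj, chg_uz, uz_il]

theorem zg_mul {z z' : V → S} (hz : X.Zg d z) (hz' : X.Zg d z') : X.Zg d (fun v => z v * z' v) :=
  fun v => mul_mem (hz v) (hz' v)

theorem chg_mul (τ z z' : V → S) (j : X.Jf) :
    X.chg τ (fun v => z v * z' v) j = X.chg (fun v => τ v * z v) z' j * X.chg τ z j := by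
  rw [chg_uz, chg_uz, chg_uz]
  apply il_inj (P := P)
  have h1 := uz_il X τ (fun v => z v * z' v) j
  have h2 := uz_il X (fun v => τ v * z v) z' j
  have h3 := uz_il X τ z j
  have h4 : (fun v => τ v * z v * z' v) = fun v => τ v * (z v * z' v) :=
    funext fun v => mul_assoc _ _ _
  rw [h4, h3] at h2
  rw [h1] at h2
  rw [il_mul]
  exact mul_right_cancel (b := X.vl τ j) (by rw [h2, mul_assoc])

variable {p k Mw c : ℕ} {P' : Type} [Group P'] {Pi : SP S P →* P'}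

theorem dz_inv (hX : X.Ok p k Mw q c Pi) (hd : 2 ≤ d) (τ : V → S) {z z' : V → S}
    (hz : Zok X d z) (hz' : Zok X d z') (w : FreeGroup J) :
    Cn (d + 3) (dz X (fun v => τ v * z' v) z w) (dz X τ z w) := by
  refine FreeGroup.induction_on w ?_ ?_ ?_ ?_
  · rw [dz_one, dz_one]
    exact Cn.rfl' _ _
  · intro j
    rw [dz_of, dz_of]
    by_cases hj : j ∈ X.Jf
    · have h1 := (dz_of_mem X hX (τ := fun _ => 1) hz j).1
      rw [dz_of] at h1
      have h2 : z (X.pj j) * cjl (X.t j) (z (X.pj j))⁻¹ ∈ gm S (d + 1) := by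
        rwa [one_mul, inv_one, mul_one] at h1
      have h3 := cn_conj (n := d + 3) (by omega) (by omega) (by omega) (zok_d X hz' hj) h2
      have h4 := ((Cn.rfl' (d + 3) (τ (X.pj j))).mul h3).mul (Cn.rfl' (d + 3) (τ (X.pj j))⁻¹)
      have h5 : τ (X.pj j) * z' (X.pj j) * (z (X.pj j) * cjl (X.t j) (z (X.pj j))⁻¹) *
          (τ (X.pj j) * z' (X.pj j))⁻¹ = τ (X.pj j) * (z' (X.pj j) *
          (z (X.pj j) * cjl (X.t j) (z (X.pj j))⁻¹) * (z' (X.pj j))⁻¹) * (τ (X.pj j))⁻¹ := by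
        group
      rw [h5]
      exact h4
    · have h1 : z (X.pj j) * cjl (X.t j) (z (X.pj j))⁻¹ = 1 := by
        rw [hX.t1 j hj]
        unfold cjl
        show z (X.pj j) * ((1 : S) * ((1 : P) • (z (X.pj j))⁻¹) * (1 : S)⁻¹) = 1
        rw [one_smul, one_mul, inv_one, mul_one, mul_inv_cancel]
      rw [h1, mul_one, mul_one, mul_inv_cancel, mul_inv_cancel]
      exact Cn.rfl' _ _
  · intro j h
    have key : ∀ τ : V → S, ∀ w : FreeGroup J,
        dz X τ z w⁻¹ = cjl (X.th τ w)⁻¹ (dz X τ z w)⁻¹ := by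
      intro τ w
      have h1 := dz_mul X τ z w w⁻¹
      rw [mul_inv_cancel, dz_one] at h1
      have h2 : cjl (X.th τ w) (dz X τ z w⁻¹) = (dz X τ z w)⁻¹ :=
        (inv_eq_of_mul_eq_one_right h1.symm).symm
      apply il_inj (P := P)
      rw [← cjl_il, ← h2, ← cjl_il]
      group
    rw [key, key, dz_il, mul_inv_rev, ← il_inv, cjl_mli]
    refine Cn.trans (Cn.cjl (cn_conj (i := d + 1) (j := d + 1) (by omega) (by omega) (by omega)
      (inv_mem (dz_mem X hX hz' _)) (inv_mem (dz_mem X hX hz _))) _) ?_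
    exact Cn.cjl (Cn.inv h) _
  · intro a b ha hb
    rw [dz_mul, dz_mul, dz_il, cjl_ilm]
    refine Cn.mul ha (Cn.trans (cn_conj (i := d + 1) (j := d + 1) (by omega) (by omega) (by omega)
      (dz_mem X hX hz' _) (cjl_mem _ (dz_mem X hX hz _))) ?_)
    exact Cn.cjl hb _

theorem chg_inv (hX : X.Ok p k Mw q c Pi) (hd : 2 ≤ d) (τ : V → S) {z z' : V → S}
    (hz : X.Zg d z) (hz' : X.Zg d z') (j : X.Jf) :
    Cn (d + 3) (X.chg (fun v => τ v * z' v) z j) (X.chg τ z j) := by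
  have hz1 := zok_of X hX hz
  have hz2 := zok_of X hX hz'
  rw [chg_uz, chg_uz]
  unfold uz
  refine Cn.mul (Cn.mul (Cn.rfl' _ _) ?_) ?_
  · have h1 : (τ (X.pj j) * z' (X.pj j))⁻¹ * dz X (fun v => τ v * z' v) z (X.W j) *
        (τ (X.pj j) * z' (X.pj j)) = (z' (X.pj j))⁻¹ * ((τ (X.pj j))⁻¹ *
          dz X (fun v => τ v * z' v) z (X.W j) * τ (X.pj j)) * ((z' (X.pj j))⁻¹)⁻¹ := by
      group
    rw [h1]
    refine Cn.trans (cn_conj (i := d) (j := d + 1) (by omega) (by omega) (by omega)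
      (inv_mem (zok_d X hz2 j.2)) ?_) ?_
    · have h2 := (gm_normal (d + 1)).conj_mem _ (dz_mem X hX (τ := fun v => τ v * z' v) hz1 (X.W j))
        (τ (X.pj j))⁻¹
      rwa [inv_inv] at h2
    · exact Cn.mul (Cn.mul (Cn.rfl' _ _) (dz_inv X hX hd τ hz1 hz2 _)) (Cn.rfl' _ _)
  · rw [uz_il, cjl_ilm]
    exact cn_conj (i := d + 1) (j := d) (by omega) (by omega) (by omega)
      (uz_mem X hX hz2 j.2).1 (cjl_mem _ (zok_d X hz1 j.2))

theorem pr2_chg (hX : X.Ok p k Mw q c Pi) (hd : 2 ≤ d) (τ : V → S) {z z' : V → S}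
    (hz : X.Zg d z) (hz' : X.Zg d z') (ζ : X.Jf → Dz S q d × Dz S q (d + 1)) :
    X.pr2 ζ (X.chg (fun v => τ v * z' v) z) = X.pr2 ζ (X.chg τ z) := by
  unfold AD.pr2
  refine Finset.sum_congr rfl fun j _ => ?_
  have h1 := chg_inv X hX hd τ hz hz' j
  have h2 := chg_mem X hX (fun v => τ v * z' v) hz j
  rw [cn_gz (gm_anti d h2) (h1.le (by omega)), cn_gz h2 h1]

/-- the blocks under a change -/
theorem bk_cg {n : ℕ} (x x' : J → SP S P) (v : V) (u : J → S)
    (h : ∀ j ∈ X.bl v, (u j ∈ gm S n ∧ x' j = il (u j) * x j) ∨ X.t j = 1) :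
    ∃ w ∈ gm S n, X.bk x' v = il w * X.bk x v := by
  have key : ∀ l : List J, (∀ j ∈ l, (u j ∈ gm S n ∧ x' j = il (u j) * x j) ∨ X.t j = 1) →
      ∃ w ∈ gm S n, wd X.t x' l = il w * wd X.t x l := by
    intro l
    induction l with
    | nil =>
      intro _
      exact ⟨1, one_mem _, by rw [il_one, one_mul]; rfl⟩
    | cons j l ih =>
      intro hl
      obtain ⟨w, hw, h1⟩ := ih fun i hi => hl i (List.mem_cons_of_mem _ hi)
      have e1 : ∀ x : J → SP S P, wd X.t x (j :: l) = ⁅X.t j, x j⁆ * wd X.t x l := by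
        intro x
        unfold wd
        rw [List.map_cons, List.prod_cons]
      have e2 : ∃ w' ∈ gm S n, ⁅X.t j, x' j⁆ = il w' * ⁅X.t j, x j⁆ := by
        rcases hl j List.mem_cons_self with ⟨hu, hx⟩ | ht
        · refine ⟨cjl (X.t j) (u j) * cjl ⁅X.t j, x j⁆ (u j)⁻¹,
            mul_mem (cjl_mem _ hu) (cjl_mem _ (inv_mem hu)), ?_⟩
          rw [hx, il_mul, ← cjl_il, ← cjl_il, il_inv]
          simp only [commutatorElement_def]
          group
        · refine ⟨1, one_mem _, ?_⟩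
          rw [ht, commutatorElement_one_left, commutatorElement_one_left, il_one, one_mul]
      obtain ⟨w', hw', h2⟩ := e2
      refine ⟨w' * cjl ⁅X.t j, x j⁆ w, mul_mem hw' (cjl_mem _ hw), ?_⟩
      rw [e1, e1, h1, h2, il_mul, ← cjl_il]
      group
  exact key _ h

/-- the law does not change under `Cg d` -/
theorem lw_cg (hX : X.Ok p k Mw q c Pi) (hd : 2 ≤ d) (Bf : ∀ i j : ℕ, Gr S i →+ Gr S j →+ ZMod q)
    (x x' : J → SP S P) (hx : ∀ j ∈ X.Jf, X.pp j → (x j).right = 1)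
    (u : J → S) (hu : ∀ j ∈ X.Jf, u j ∈ gm S (if X.pp j then d else d + 1) ∧ x' j = il (u j) * x j)
    (z : V → S) : X.lw Bf d x' z = X.lw Bf d x z := by
  unfold AD.lw
  congr 1
  refine List.map_congr_left fun v hv => ?_
  by_cases hp : X.ppl v
  · rw [if_pos hp, if_pos hp]
    congr 1
    obtain ⟨j, hj, hpj, rfl⟩ := hp
    have h1 := hu j hj
    rw [if_pos hpj] at h1
    have h2 : ∀ x : J → SP S P, X.bk x (X.pj j) = ⁅X.t j, x j⁆ := by
      intro x
      unfold AD.bk wd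
      rw [hX.pb j hj hpj, List.map_cons, List.map_nil, List.prod_cons, List.prod_nil, mul_one]
    have h3 : x j = il (x j).left := il_of (hx j hj hpj)
    have h4 : ∀ s : S, (⁅X.t j, (il s : SP S P)⁆).left = ⁅X.y j, s⁆ := by
      intro s
      have h5 : (⁅il (X.y j), (il s : SP S P)⁆) = il ⁅X.y j, s⁆ :=
        (map_commutatorElement (SemidirectProduct.inl : S →* SP S P) _ _).symm
      rw [hX.pt j hj hpj, h5]
      rfl
    rw [h2, h2, h1.2, h3, ← il_mul, h4, h4]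
    have h5 : ⁅X.y j, u j * (x j).left⁆ =
        ⁅X.y j, u j⁆ * (u j * ⁅X.y j, (x j).left⁆ * (u j)⁻¹) := by
      simp only [commutatorElement_def]
      group
    have h6 : ⁅X.y j, (x j).left⁆ ∈ gm S 2 := gm_comm2 (i := 1) (j := 1) le_rfl le_rfl
      (Subgroup.mem_top _) (Subgroup.mem_top _)
    have h7 : ⁅X.y j, u j⁆ ∈ gm S 3 := gm_le (by omega) (gm_comm' d h1.1)
    refine cn_gk (n := 2) ?_ ?_
    · exact gm_comm2 (i := 1) (j := 1) le_rfl le_rfl (Subgroup.mem_top _) (Subgroup.mem_top _)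
    · rw [h5]
      have h8 : Cn 3 ⁅X.y j, u j⁆ 1 := by
        unfold Cn
        rw [inv_one, mul_one]
        exact h7
      have h9 := h8.mul (cn_conj (i := 1) (j := 2) (n := 3) le_rfl (by omega) le_rfl
        (Subgroup.mem_top (u j)) h6)
      rwa [one_mul] at h9
  · rw [if_neg hp, if_neg hp]
    congr 1
    obtain ⟨w, hw, h1⟩ := bk_cg X (n := 2) x x' v u fun j hj => by
      by_cases hJ : j ∈ X.Jf
      · left
        have h2 := hu j hJ
        refine ⟨gm_le ?_ h2.1, h2.2⟩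
        split_ifs
        · exact hd
        · omega
      · exact Or.inr (hX.t1 j hJ)
    rw [h1]
    have h2 : (il w * X.bk x v).left = w * (X.bk x v).left := by
      show w * ((1 : P) • (X.bk x v).left) = _
      rw [one_smul]
    rw [h2, gk_mul (Subgroup.mem_top _) (Subgroup.mem_top _), (gk_zero (Subgroup.mem_top _)).2 hw,
      zero_add]

theorem lw_mul (Bf : ∀ i j : ℕ, Gr S i →+ Gr S j →+ ZMod q) (x : J → SP S P) {z z' : V → S}
    (hz : X.Zg d z) (hz' : X.Zg d z') :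
    X.lw Bf d x (fun v => z v * z' v) = X.lw Bf d x z + X.lw Bf d x z' := by
  unfold AD.lw
  rw [← List.sum_map_add]
  congr 1
  refine List.map_congr_left fun v _ => ?_
  have h1 := hz v
  have h2 := hz' v
  by_cases hp : X.ppl v
  · rw [if_pos hp] at h1 h2
    rw [if_pos hp, if_pos hp, if_pos hp, gk_mul h1 h2, map_add, AddMonoidHom.add_apply]
  · rw [if_neg hp] at h1 h2
    rw [if_neg hp, if_neg hp, if_neg hp, gk_mul h1 h2, map_add, AddMonoidHom.add_apply]

theorem f2_inv (hX : X.Ok p k Mw q c Pi) (hd : 2 ≤ d)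
    (Bf : ∀ i j : ℕ, Gr S i →+ Gr S j →+ ZMod q) (τ : V → S) {z z' : V → S}
    (hz : X.Zg d z) (hz' : X.Zg d z') (ζ : X.Jf → Dz S q d × Dz S q (d + 1)) :
    X.F2 Bf (fun v => τ v * z' v) z ζ = X.F2 Bf τ z ζ := by
  unfold AD.F2
  rw [pr2_chg X hX hd τ hz hz' ζ]
  congr 1
  refine lw_cg X hX hd Bf _ _ (fun j hj hp => ?_) (fun j => uz X τ z' j) (fun j hj => ⟨?_, ?_⟩) z
  · rw [vl_rt, hX.pw j hj hp]
  · have h1 := (uz_mem X hX (zok_of X hX hz') (τ := τ) hj).1
    by_cases hp : X.pp j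
    · rw [if_pos hp]
      exact gm_anti d h1
    · rw [if_neg hp]
      exact h1
  · exact uz_il X τ z' j

theorem f2_mul (hX : X.Ok p k Mw q c Pi) (hd : 2 ≤ d)
    (Bf : ∀ i j : ℕ, Gr S i →+ Gr S j →+ ZMod q) (τ : V → S) {z z' : V → S}
    (hz : X.Zg d z) (hz' : X.Zg d z') (ζ : X.Jf → Dz S q d × Dz S q (d + 1)) :
    X.F2 Bf τ (fun v => z v * z' v) ζ = X.F2 Bf τ z ζ + X.F2 Bf τ z' ζ := by
  have h1 : X.pr2 ζ (X.chg τ fun v => z v * z' v) = X.pr2 ζ (X.chg τ z) + X.pr2 ζ (X.chg τ z') := by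
    rw [← pr2_chg X hX hd τ hz' hz ζ]
    unfold AD.pr2
    rw [← Finset.sum_add_distrib]
    refine Finset.sum_congr rfl fun j _ => ?_
    rw [chg_mul]
    have h2 := chg_mem X hX (fun v => τ v * z v) hz' j
    have h3 := chg_mem X hX τ hz j
    rw [gz_mul (gm_anti d h2) (gm_anti d h3), gz_mul h2 h3]
    split_ifs
    · rw [map_add, add_comm]
    · rw [map_add, add_comm]
  unfold AD.F2
  rw [h1, lw_mul X Bf _ hz hz']
  abel

end ad

end H73.OW
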